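import Pool.Agent.Helper15_Pack.Poly

/-!
# Piecewise linear functions and chains
-/

namespace Pool.Agent.Helper15_Pack

open Pool.Agent.Helper2_Pack

/-- `f` is linear on the edge `e`, with the right values -/
def Fit (f : ℝ → ℝ) (e : (ℚ × ℚ) × (ℚ × ℚ)) : Prop :=
  e.1.1 < e.2.1 ∧ ∀ x : ℝ, (e.1.1 : ℝ) ≤ x → x ≤ e.2.1 →
    f x = e.1.2 + (x - e.1.1) / (e.2.1 - e.1.1) * (e.2.2 - e.1.2)

/-- `f` fits to all edges of a chain -/
def Fits (f : ℝ → ℝ) (L : List (ℚ × ℚ)) : Prop := ∀ e ∈ path L, Fit f e

theorem fits_nil (f : ℝ → ℝ) : Fits f [] := by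
  intro e he
  simp [path] at he

theorem fits_singleton (f : ℝ → ℝ) (p : ℚ × ℚ) : Fits f [p] := by
  intro e he
  simp [path] at he

theorem fits_cons (f : ℝ → ℝ) (p r : ℚ × ℚ) (L : List (ℚ × ℚ)) :
    Fits f (p :: r :: L) ↔ Fit f (p, r) ∧ Fits f (r :: L) := by
  unfold Fits
  rw [path]
  constructor
  · intro h
    exact ⟨h _ List.mem_cons_self, fun e he => h e (List.mem_cons_of_mem _ he)⟩
  · rintro ⟨h1, h2⟩ e he
    rcases List.mem_cons.1 he with rfl | he
    · exact h1
    · exact h2 e he

theorem fits_append (f : ℝ → ℝ) (A : List (ℚ × ℚ)) (x : ℚ × ℚ) (B : List (ℚ × ℚ)) :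
    Fits f (A ++ x :: B) ↔ Fits f (A ++ [x]) ∧ Fits f (x :: B) := by
  unfold Fits
  rw [path_append]
  constructor
  · intro h
    exact ⟨fun e he => h e (List.mem_append_left _ he), fun e he => h e (List.mem_append_right _ he)⟩
  · rintro ⟨h1, h2⟩ e he
    rcases List.mem_append.1 he with he | he
    · exact h1 e he
    · exact h2 e he

theorem fits_join {f : ℝ → ℝ} {P Q : List (ℚ × ℚ)} {x : ℚ × ℚ} (hP : Fits f P)
    (hx : P.getLast? = some x) (hQ : Fits f (x :: Q)) : Fits f (P ++ Q) := by
  obtain ⟨P', rfl⟩ := List.getLast?_eq_some_iff.1 hx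
  rw [List.append_assoc, List.singleton_append, fits_append]
  exact ⟨hP, hQ⟩

theorem strictX_of_fits {f : ℝ → ℝ} {L : List (ℚ × ℚ)} (h : Fits f L) : StrictX L := by
  induction L with
  | nil => exact List.Pairwise.nil
  | cons p L ih =>
    cases L with
    | nil => exact List.pairwise_singleton _ _
    | cons r L =>
      rw [fits_cons] at h
      have h1 := ih h.2
      have h2 : p.1 < r.1 := h.1.1
      refine List.pairwise_cons.2 ⟨?_, h1⟩
      intro s hs
      rcases List.mem_cons.1 hs with rfl | hs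
      · exact h2
      · exact h2.trans ((List.pairwise_cons.1 h1).1 s hs)

theorem val_of_fits {f : ℝ → ℝ} {L : List (ℚ × ℚ)} {p q : ℚ × ℚ} (h : Fits f L)
    (hp : L.head? = some p) (hq : L.getLast? = some q) (hpq : p.1 < q.1) (x : ℝ)
    (h1 : (p.1 : ℝ) ≤ x) (h2 : x ≤ q.1) : chainVal L x = f x := by
  induction L generalizing p with
  | nil => simp at hp
  | cons p' L ih =>
    simp only [List.head?_cons, Option.some.injEq] at hp
    subst hp
    cases L with
    | nil =>
      simp only [List.getLast?_singleton, Option.some.injEq] at hq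
      rw [hq] at hpq
      exact absurd hpq (lt_irrefl _)
    | cons r L =>
      have hS := strictX_of_fits h
      rw [fits_cons] at h
      rcases le_or_gt x r.1 with h3 | h3
      · rw [chainVal_le h3]
        exact (h.1.2 x h1 h3).symm
      · rw [chainVal_ge hS h3.le]
        rw [List.getLast?_cons_cons] at hq
        apply ih h.2 (List.head?_cons) hq ?_ h3.le
        have : (r.1 : ℝ) < q.1 := lt_of_lt_of_le h3 h2
        exact_mod_cast this

theorem fit_slope {f : ℝ → ℝ} {p r : ℚ × ℚ} (s : ℝ) (h : p.1 < r.1)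
    (hs : (r.2 : ℝ) - p.2 = s * (r.1 - p.1))
    (hf : ∀ x : ℝ, (p.1 : ℝ) ≤ x → x ≤ r.1 → f x = p.2 + s * (x - p.1)) : Fit f (p, r) := by
  refine ⟨h, ?_⟩
  intro x h1 h2
  simp only at h1 h2 ⊢
  have h3 : (0 : ℝ) < r.1 - p.1 := by
    rw [sub_pos]
    exact_mod_cast h
  rw [hf x h1 h2, hs]
  field_simp

/-- the tents of the list are pairwise disjoint and lie between `x0` and `x1` -/
def Sep (g x1 : ℚ) : ℚ → List (ℚ × ℚ) → Prop
  | x0, [] => x0 < x1
  | x0, d :: L => x0 < d.1 - (d.2 - g) ∧ g < d.2 ∧ Sep g x1 (d.1 + (d.2 - g)) L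

/-- cast to real numbers -/
noncomputable def cst (d : ℚ × ℚ) : ℝ × ℝ := ((d.1 : ℝ), (d.2 : ℝ))

theorem tents_cons (g : ℝ) (d : ℝ × ℝ) (L : List (ℝ × ℝ)) (x : ℝ) :
    tents g (d :: L) x = max (d.2 - |x - d.1|) (tents g L x) := rfl

theorem le_tents (g : ℝ) (L : List (ℝ × ℝ)) (x : ℝ) : g ≤ tents g L x := by
  induction L with
  | nil => exact le_rfl
  | cons d L ih => exact ih.trans (le_max_right _ _)

theorem sep_lt {g x1 : ℚ} {x0 : ℚ} {L : List (ℚ × ℚ)} (h : Sep g x1 x0 L) : x0 < x1 := by
  induction L generalizing x0 with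
  | nil => exact h
  | cons d L ih =>
    obtain ⟨h1, h2, h3⟩ := h
    have := ih h3
    linarith

theorem tents_left {g x1 : ℚ} {x0 : ℚ} {L : List (ℚ × ℚ)} (h : Sep g x1 x0 L) {x : ℝ}
    (hx : x ≤ x0) : tents g (L.map cst) x = g := by
  induction L generalizing x0 with
  | nil => rfl
  | cons d L ih =>
    obtain ⟨h1, h2, h3⟩ := h
    have h1' : (x0 : ℝ) < d.1 - (d.2 - g) := by exact_mod_cast h1
    have h2' : (g : ℝ) < d.2 := by exact_mod_cast h2
    rw [List.map_cons, tents_cons, ih h3]
    · apply max_eq_right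
      simp only [cst]
      have : x - d.1 ≤ 0 := by linarith
      rw [abs_of_nonpos this]
      linarith
    · push_cast
      linarith

theorem tents_right {g x1 : ℚ} {x0 : ℚ} {L : List (ℚ × ℚ)} (h : Sep g x1 x0 L) {x : ℝ}
    (hx : x1 ≤ x) : tents g (L.map cst) x = g := by
  induction L generalizing x0 with
  | nil => rfl
  | cons d L ih =>
    obtain ⟨h1, h2, h3⟩ := h
    have h4 := sep_lt h3
    have h4' : (d.1 : ℝ) + (d.2 - g) < x1 := by exact_mod_cast h4
    have h2' : (g : ℝ) < d.2 := by exact_mod_cast h2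
    rw [List.map_cons, tents_cons, ih h3]
    apply max_eq_right
    simp only [cst]
    have : 0 ≤ x - d.1 := by linarith
    rw [abs_of_nonneg this]
    linarith

theorem tentPts_cons (g : ℚ) (d : ℚ × ℚ) (L : List (ℚ × ℚ)) : tentPts g (d :: L) =
    (d.1 - (d.2 - g), g) :: (d.1, d.2) :: (d.1 + (d.2 - g), g) :: tentPts g L := rfl

/-- the corners of tents fit to the function `tents` -/
theorem fits_tents {g x1 : ℚ} {x0 : ℚ} {L : List (ℚ × ℚ)} (h : Sep g x1 x0 L) (f : ℝ → ℝ)
    (hf : ∀ x : ℝ, (x0 : ℝ) ≤ x → x ≤ x1 → f x = tents g (L.map cst) x) :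
    Fits f ((x0, g) :: tentPts g L ++ [(x1, g)]) := by
  induction L generalizing x0 with
  | nil =>
    simp only [tentPts, List.flatMap_nil, List.cons_append, List.nil_append]
    rw [fits_cons]
    refine ⟨?_, fits_singleton _ _⟩
    have h' : x0 < x1 := h
    apply fit_slope (p := (x0, g)) (r := (x1, g)) 0 h'
    · simp
    · intro x h1 h2
      rw [hf x h1 h2]
      simp [tents]
  | cons d L ih =>
    have h0 := h
    obtain ⟨h1, h2, h3⟩ := h
    have h1' : (x0 : ℝ) < d.1 - (d.2 - g) := by exact_mod_cast h1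
    have h2' : (g : ℝ) < d.2 := by exact_mod_cast h2
    have h4 := sep_lt h3
    have h4' : (d.1 : ℝ) + (d.2 - g) < x1 := by exact_mod_cast h4
    rw [tentPts_cons]
    simp only [List.cons_append]
    rw [fits_cons, fits_cons, fits_cons]
    have hmap : ∀ x : ℝ, tents g ((d :: L).map cst) x =
        max (d.2 - |x - d.1|) (tents g (L.map cst) x) := fun x => rfl
    have hl : ∀ x : ℝ, x ≤ d.1 + (d.2 - g) → tents g (L.map cst) x = g := by
      intro x hx
      apply tents_left h3
      push_cast
      exact hx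
    refine ⟨?_, ?_, ?_, ?_⟩
    · apply fit_slope 0 h1
      · simp
      · intro x h5 h6
        simp only at h5 h6
        push_cast at h6
        rw [hf x h5 (by linarith), hmap, hl x (by linarith)]
        have : x - d.1 ≤ 0 := by linarith
        rw [abs_of_nonpos this, max_eq_right (by linarith)]
        simp
    · apply fit_slope 1
      · simp only
        linarith
      · simp only
        push_cast
        ring
      · intro x h5 h6
        simp only at h5 h6 ⊢
        push_cast at h5 h6 ⊢
        rw [hf x (by linarith) (by linarith), hmap, hl x (by linarith)]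
        have : x - d.1 ≤ 0 := by linarith
        rw [abs_of_nonpos this, max_eq_left (by linarith)]
        ring
    · apply fit_slope (-1)
      · simp only
        linarith
      · simp only
        push_cast
        ring
      · intro x h5 h6
        simp only at h5 h6 ⊢
        push_cast at h5 h6 ⊢
        rw [hf x (by linarith) (by linarith), hmap, hl x (by linarith)]
        have : 0 ≤ x - d.1 := by linarith
        rw [abs_of_nonneg this, max_eq_left (by linarith)]
        ring
    · have := ih h3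
      rw [List.cons_append] at this
      apply this
      intro x h5 h6
      push_cast at h5
      rw [hf x (by linarith) h6, hmap]
      apply max_eq_right
      have h7 := le_tents g (L.map cst) x
      have : 0 ≤ x - d.1 := by linarith
      rw [abs_of_nonneg this]
      linarith

end Pool.Agent.Helper15_Pack
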