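import Pool.Agent.Helper2_Pack.Stmts3

/-!
# Translation of polygons
-/

namespace Pool.Agent.Helper15_Pack

open Pool.Agent.Helper2_Pack

theorem pt_add (p : ℚ × ℚ) (a b : ℚ) : pt (p.1 + a, p.2 + b) = pt p + ⟨a, b⟩ := by
  apply Complex.ext <;> simp [pt]

theorem edges_map (P : Polygon) (f : ℚ × ℚ → ℚ × ℚ) :
    edges (P.map f) = (edges P).map (Prod.map f f) := by
  unfold edges
  rw [← List.map_rotate, List.zip_map]

theorem crosses_add (z p q w : ℂ) : Crosses (z + w) (p + w) (q + w) ↔ Crosses z p q := by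
  unfold Crosses
  simp only [Complex.add_re, Complex.add_im, add_le_add_iff_right, add_lt_add_iff_right,
    add_sub_add_right_eq_sub]
  constructor
  · rintro ⟨h, h2⟩
    exact ⟨h, by linarith⟩
  · rintro ⟨h, h2⟩
    exact ⟨h, by linarith⟩

theorem segment_add (z p q w : ℂ) : z + w ∈ segment ℝ (p + w) (q + w) ↔ z ∈ segment ℝ p q := by
  rw [add_comm z w, add_comm p w, add_comm q w]
  exact mem_segment_translate ℝ w

theorem side_map {P : Polygon} {a b : ℚ} {i : ℕ} (hi : i < P.length) (z : ℂ) :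
    z + ⟨a, b⟩ ∈ side (P.map fun p => (p.1 + a, p.2 + b)) i ↔ z ∈ side P i := by
  unfold side
  have h0 : 0 < P.length := lt_of_le_of_lt (Nat.zero_le _) hi
  have hj : (i + 1) % P.length < P.length := Nat.mod_lt _ h0
  rw [List.length_map]
  have e : ∀ j, j < P.length → (P.map fun p => (p.1 + a, p.2 + b)).getD j 0 =
      ((P.getD j 0).1 + a, (P.getD j 0).2 + b) := by
    intro j hj
    rw [List.getD_eq_getElem _ _ (by simpa using hj), List.getD_eq_getElem _ _ hj, List.getElem_map]
  rw [e i hi, e _ hj, pt_add, pt_add]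
  exact segment_add _ _ _ _

theorem getD_map {P : Polygon} {a b : ℚ} {j : ℕ} (hj : j < P.length) :
    pt ((P.map fun p => (p.1 + a, p.2 + b)).getD j 0) = pt (P.getD j 0) + ⟨a, b⟩ := by
  rw [List.getD_eq_getElem _ _ (by simpa using hj), List.getD_eq_getElem _ _ hj, List.getElem_map,
    pt_add]

theorem region_map (P : Polygon) (a b : ℚ) (z : ℂ) :
    z ∈ region (P.map fun p => (p.1 + a, p.2 + b)) ↔ z - ⟨a, b⟩ ∈ region P := by
  classical
  have hz : z = (z - ⟨a, b⟩) + ⟨a, b⟩ := by ring
  unfold region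
  simp only [Set.mem_setOf_eq]
  rw [edges_map]
  apply or_congr
  · constructor
    · rintro ⟨e, he, h3⟩
      obtain ⟨e', h1, rfl⟩ := List.mem_map.1 he
      refine ⟨e', h1, ?_⟩
      rw [Prod.map_fst, Prod.map_snd, pt_add, pt_add, hz] at h3
      exact (segment_add _ _ _ _).1 h3
    · rintro ⟨e', h1, h3⟩
      refine ⟨_, List.mem_map_of_mem h1, ?_⟩
      rw [Prod.map_fst, Prod.map_snd, pt_add, pt_add, hz]
      exact (segment_add _ _ _ _).2 h3
  · rw [List.countP_map]
    apply iff_of_eq
    congr 1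
    apply List.countP_congr
    intro e _
    simp only [Function.comp_apply, Prod.map_fst, Prod.map_snd, decide_eq_true_eq]
    rw [pt_add, pt_add]
    conv_lhs => rw [hz]
    exact crosses_add _ _ _ _

theorem p6 : P6Stmt := by
  intro P a b hP
  refine ⟨⟨by simpa using hP.1, ?_⟩, ?_⟩
  · intro i j hij hj z hzi hzj
    rw [List.length_map] at hj
    have hz : z = (z - ⟨a, b⟩) + ⟨a, b⟩ := by ring
    rw [hz] at hzi hzj
    rw [side_map (hij.trans hj)] at hzi
    rw [side_map hj] at hzj
    have := hP.2 i j hij hj _ hzi hzj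
    rw [List.length_map, getD_map hj, getD_map (by omega)]
    rcases this with ⟨h1, h2⟩ | ⟨h1, h2, h3⟩
    · left
      exact ⟨h1, by rw [← h2]; ring⟩
    · right
      exact ⟨h1, h2, by rw [← h3]; ring⟩
  · ext z
    rw [region_map]
    constructor
    · intro h
      exact ⟨_, h, by ring⟩
    · rintro ⟨y, hy, rfl⟩
      simpa using hy

end Pool.Agent.Helper15_Pack
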