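import Pool.Agent.Helper15_Pack.P7

/-!
# The chains of a lever
-/

namespace Pool.Agent.Helper15_Pack

open Pool.Agent.Helper2_Pack

theorem abs_sg (σ : Bool) : |(sg σ : ℝ)| = 1 := by
  cases σ <;> simp [sg]

theorem sg_cases (σ : Bool) : ((sg σ : ℤ) : ℝ) = 1 ∨ ((sg σ : ℤ) : ℝ) = -1 := by
  cases σ
  · right
    simp [sg]
  · left
    simp [sg]

theorem roof_lip {q : ℝ} (h0 : 0 ≤ q) (σ : Bool) (x y : ℝ) :
    |roof q σ x - roof q σ y| ≤ q * |x - y| := by
  unfold roof
  have e : piv q σ + sg σ * q * |x - 20 / 32| - (piv q σ + sg σ * q * |y - 20 / 32|) =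
      sg σ * (q * (|x - 20 / 32| - |y - 20 / 32|)) := by ring
  rw [e, abs_mul, abs_sg, one_mul, abs_mul, abs_of_nonneg h0]
  apply mul_le_mul_of_nonneg_left _ h0
  have := abs_abs_sub_abs_le (x - 20 / 32) (y - 20 / 32)
  rwa [sub_sub_sub_cancel_right] at this

theorem roof_lip1 {q : ℝ} (h0 : 0 ≤ q) (h1 : q ≤ 1 / 2) (σ : Bool) {x y : ℝ} (h : x ≤ y) :
    -(y - x) / 2 ≤ roof q σ y - roof q σ x ∧ roof q σ y - roof q σ x ≤ (y - x) / 2 := by
  have h2 := roof_lip h0 σ y x
  rw [abs_of_nonneg (sub_nonneg.2 h)] at h2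
  have h3 : q * (y - x) ≤ (y - x) / 2 := by nlinarith [sub_nonneg.2 h]
  have h4 := abs_le.1 (h2.trans h3)
  constructor
  · linarith [h4.1]
  · exact h4.2

section port

variable {q : ℝ} (h0 : 0 < q) (h1 : q ≤ 1 / 2) (σ : Bool) (p x : ℝ)

theorem port_left (h : x ≤ p - 3 * q ^ 3 - (roof q σ (p - 3 * q ^ 3) - q ^ 3)) :
    port q σ p x ≤ q ^ 3 := by
  unfold port
  apply (min_le_right _ _).trans
  apply (min_le_left _ _).trans
  linarith

theorem port_right (h : p + 3 * q ^ 3 + (roof q σ (p + 3 * q ^ 3) - q ^ 3) ≤ x) :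
    port q σ p x ≤ q ^ 3 := by
  unfold port
  apply (min_le_right _ _).trans
  apply (min_le_right _ _).trans
  linarith

include h0 h1

theorem port_up (h : x ≤ p - 3 * q ^ 3) :
    port q σ p x = roof q σ (p - 3 * q ^ 3) + (x - (p - 3 * q ^ 3)) := by
  have h2 := roof_lip1 h0.le h1 σ h
  have h3 : (0 : ℝ) ≤ q ^ 3 := by positivity
  have h4 := roof_lip1 h0.le h1 σ (x := p - 3 * q ^ 3) (y := p + 3 * q ^ 3) (by linarith only [h3])
  unfold port
  have e1 : min (roof q σ (p - 3 * q ^ 3) + 3 * q ^ 3 - (p - x))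
      (roof q σ (p + 3 * q ^ 3) + 3 * q ^ 3 - (x - p)) =
      roof q σ (p - 3 * q ^ 3) + 3 * q ^ 3 - (p - x) := by
    apply min_eq_left
    linarith [h4.1, h4.2]
  rw [e1, min_eq_right]
  · ring
  · linarith only [h2.1, h2.2]

theorem port_mid (h : p - 3 * q ^ 3 ≤ x) (h' : x ≤ p + 3 * q ^ 3) :
    port q σ p x = roof q σ x := by
  have h2 := roof_lip1 h0.le h1 σ h
  have h3 := roof_lip1 h0.le h1 σ h'
  unfold port
  apply min_eq_left
  apply le_min
  · linarith only [h2.1, h2.2]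
  · linarith only [h3.1, h3.2]

theorem port_down (h : p + 3 * q ^ 3 ≤ x) :
    port q σ p x = roof q σ (p + 3 * q ^ 3) - (x - (p + 3 * q ^ 3)) := by
  have h2 := roof_lip1 h0.le h1 σ h
  have h3 : (0 : ℝ) ≤ q ^ 3 := by positivity
  have h4 := roof_lip1 h0.le h1 σ (x := p - 3 * q ^ 3) (y := p + 3 * q ^ 3) (by linarith)
  unfold port
  have e1 : min (roof q σ (p - 3 * q ^ 3) + 3 * q ^ 3 - (p - x))
      (roof q σ (p + 3 * q ^ 3) + 3 * q ^ 3 - (x - p)) =
      roof q σ (p + 3 * q ^ 3) + 3 * q ^ 3 - (x - p) := by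
    apply min_eq_right
    linarith [h4.1, h4.2]
  rw [e1, min_eq_right]
  · ring
  · linarith [h2.1, h2.2]

end port

/-- the corners of a port -/
theorem fits_port {q p a b : ℚ} (h0 : 0 < q) (h1 : q ≤ 1 / 2) (σ : Bool) (f : ℝ → ℝ)
    (ha : (a : ℝ) = roof q σ (p - 3 * q ^ 3)) (hb : (b : ℝ) = roof q σ (p + 3 * q ^ 3))
    (ha' : q ^ 3 < a) (hb' : q ^ 3 < b)
    (hlin : ∀ x : ℝ, (p : ℝ) - 3 * q ^ 3 ≤ x → x ≤ p + 3 * q ^ 3 →
      roof q σ x = a + (x - (p - 3 * q ^ 3)) / (6 * q ^ 3) * (b - a))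
    (hf : ∀ x : ℝ, (p : ℝ) - 3 * q ^ 3 - (a - q ^ 3) ≤ x → x ≤ p + 3 * q ^ 3 + (b - q ^ 3) →
      f x = port q σ p x) : Fits f (portPts q p a b) := by
  have h0' : (0 : ℝ) < q := by exact_mod_cast h0
  have h1' : (q : ℝ) ≤ 1 / 2 := by
    have : ((1 / 2 : ℚ) : ℝ) = 1 / 2 := by norm_num
    rw [← this]
    exact_mod_cast h1
  have ha2 : (q : ℝ) ^ 3 < a := by exact_mod_cast ha'
  have hb2 : (q : ℝ) ^ 3 < b := by exact_mod_cast hb'
  have h3 : (0 : ℝ) < (q : ℝ) ^ 3 := by positivity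
  have h3' : (0 : ℚ) < q ^ 3 := by positivity
  unfold portPts
  rw [fits_cons, fits_cons, fits_cons]
  refine ⟨?_, ?_, ?_, fits_singleton _ _⟩
  · apply fit_slope 1
    · simp only
      linarith only [ha']
    · simp only
      push_cast
      ring
    · intro x h4 h5
      simp only at h4 h5 ⊢
      push_cast at h4 h5 ⊢
      rw [hf x h4 (by linarith), port_up h0' h1' _ _ _ h5, ← ha]
      ring
  · refine ⟨?_, ?_⟩
    · simp only
      linarith
    · intro x h4 h5
      simp only at h4 h5 ⊢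
      push_cast at h4 h5 ⊢
      rw [hf x (by linarith) (by linarith), port_mid h0' h1' _ _ _ h4 h5, hlin x h4 h5]
      have : (p : ℝ) + 3 * q ^ 3 - (p - 3 * q ^ 3) = 6 * q ^ 3 := by ring
      rw [this]
  · apply fit_slope (-1)
    · simp only
      linarith
    · simp only
      push_cast
      ring
    · intro x h4 h5
      simp only at h4 h5 ⊢
      push_cast at h4 h5 ⊢
      rw [hf x (by linarith) h5, port_down h0' h1' _ _ _ h4, ← hb]
      ring

/-- the tents of a lever -/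
def TLQ (q : ℚ) (σ : Bool) : List (ℚ × ℚ) :=
  if σ then [] else [(13 / 32, q + 2 * q ^ 3), (26 / 32, q + 2 * q ^ 3)]

theorem cast_TLQ (q : ℚ) (σ : Bool) :
    (if σ then [] else [((13 / 32 : ℝ), (q : ℝ) + 2 * (q : ℝ) ^ 3),
      ((26 / 32 : ℝ), (q : ℝ) + 2 * (q : ℝ) ^ 3)]) = (TLQ q σ).map cst := by
  unfold TLQ
  cases σ <;> simp [cst]

theorem tentPts_TLQ (q : ℚ) (σ : Bool) :
    (if σ then [] else tentPts (q ^ 3) [(13 / 32, q + 2 * q ^ 3), (26 / 32, q + 2 * q ^ 3)]) =
      tentPts (q ^ 3) (TLQ q σ) := by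
  unfold TLQ
  cases σ <;> simp [tentPts]

theorem leverLo_eq (q : ℚ) (σ : Bool) : leverLo q σ =
    (0, 8 * q ^ 3) :: (7 * q ^ 3, q ^ 3) ::
    (portPts q (10 / 32) (q + 3 * sg σ * q ^ 4) (q - 3 * sg σ * q ^ 4) ++
    (tentPts (q ^ 3) (TLQ q σ) ++
    (portPts q (30 / 32) (q - 3 * sg σ * q ^ 4) (q + 3 * sg σ * q ^ 4) ++
    [(1 - 7 * q ^ 3, q ^ 3), (1, 8 * q ^ 3)]))) := by
  rw [← tentPts_TLQ]
  simp [leverLo]

/-- small quantities -/
theorem smalls {q : ℚ} (h0 : 0 < q) (h1 : q ≤ 1 / 2 ^ 20) (σ : Bool) :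
    0 < q ^ 3 ∧ q ^ 3 ≤ q / 1000000 ∧ -(q ^ 3 / 1000) ≤ sg σ * q ^ 4 ∧ sg σ * q ^ 4 ≤ q ^ 3 / 1000 ∧
      q ≤ 1 / 1000000 := by
  obtain ⟨h2, h3⟩ := cube_small h0 h1
  norm_num at h1 h3
  have h4 : q ^ 4 = q * q ^ 3 := by ring
  have h5 : q ^ 4 ≤ q ^ 3 / 1000 := by
    rw [h4]
    nlinarith
  have h6 : 0 ≤ q ^ 4 := by positivity
  refine ⟨h2, by linarith, ?_, ?_, by linarith⟩
  · cases σ
    · simp only [sg]
      push_cast
      linarith
    · simp only [sg]
      push_cast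
      linarith only [h2, h6]
  · cases σ
    · simp only [sg]
      push_cast
      linarith
    · simp only [sg]
      push_cast
      linarith

theorem smallsR {q : ℚ} (h0 : 0 < q) (h1 : q ≤ 1 / 2 ^ 20) (σ : Bool) :
    (0 : ℝ) < q ∧ (0 : ℝ) < (q : ℝ) ^ 3 ∧ (q : ℝ) ^ 3 ≤ q / 1000000 ∧
      -((q : ℝ) ^ 3 / 1000) ≤ sg σ * (q : ℝ) ^ 4 ∧ sg σ * (q : ℝ) ^ 4 ≤ (q : ℝ) ^ 3 / 1000 ∧
      (q : ℝ) ≤ 1 / 1000000 := by
  obtain ⟨h2, h3, h4, h5, h6⟩ := smalls h0 h1 σ
  refine ⟨by exact_mod_cast h0, by exact_mod_cast h2, ?_, ?_, ?_, ?_⟩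
  · have : ((q ^ 3 : ℚ) : ℝ) ≤ ((q / 1000000 : ℚ) : ℝ) := by exact_mod_cast h3
    push_cast at this
    exact this
  · have : ((-(q ^ 3 / 1000) : ℚ) : ℝ) ≤ ((sg σ * q ^ 4 : ℚ) : ℝ) := by exact_mod_cast h4
    push_cast at this
    exact this
  · have : ((sg σ * q ^ 4 : ℚ) : ℝ) ≤ ((q ^ 3 / 1000 : ℚ) : ℝ) := by exact_mod_cast h5
    push_cast at this
    exact this
  · have : ((q : ℚ) : ℝ) ≤ ((1 / 1000000 : ℚ) : ℝ) := by exact_mod_cast h6
    push_cast at this
    exact this

theorem sep_TLQ {q : ℚ} (h0 : 0 < q) (h1 : q ≤ 1 / 2 ^ 20) (σ : Bool) :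
    Sep (q ^ 3) (30 / 32 - 3 * q ^ 3 - (q - 3 * sg σ * q ^ 4 - q ^ 3))
      (10 / 32 + 3 * q ^ 3 + (q - 3 * sg σ * q ^ 4 - q ^ 3)) (TLQ q σ) := by
  obtain ⟨h2, h3, h4, h5, h6⟩ := smalls h0 h1 σ
  unfold TLQ
  cases σ
  · simp only [Bool.false_eq_true, if_false, Sep]
    refine ⟨?_, ?_, ?_, ?_, ?_⟩ <;> linarith
  · simp only [if_true, Sep]
    linarith

theorem roof_left {q : ℝ} (σ : Bool) {x : ℝ} (hx : x ≤ 20 / 32) :
    roof q σ x = q + sg σ * q * (10 / 32 - x) := by
  unfold roof piv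
  rw [abs_of_nonpos (by linarith)]
  ring

theorem roof_right {q : ℝ} (σ : Bool) {x : ℝ} (hx : 20 / 32 ≤ x) :
    roof q σ x = q + sg σ * q * (x - 30 / 32) := by
  unfold roof piv
  rw [abs_of_nonneg (by linarith)]
  ring

theorem roof_ge {q : ℝ} (h0 : 0 < q) (σ : Bool) {x : ℝ} (h1 : 0 ≤ x) (h2 : x ≤ 1) :
    q / 2 ≤ roof q σ x := by
  unfold roof piv
  have h3 : |x - 20 / 32| ≤ 20 / 32 := by
    rw [abs_le]
    constructor <;> linarith
  have h4 : 0 ≤ |x - 20 / 32| := abs_nonneg _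
  rcases sg_cases σ with h | h
  · rw [h]
    nlinarith only [h0, h4]
  · rw [h]
    nlinarith only [h0, h3]

theorem port_ge {q : ℝ} (h0 : 0 < q) (h3 : q ^ 3 ≤ q / 2) (σ : Bool) {p x : ℝ} (h1 : 0 ≤ x)
    (h2 : x ≤ 1) (h4 : p - 3 * q ^ 3 - (roof q σ (p - 3 * q ^ 3) - q ^ 3) ≤ x)
    (h5 : x ≤ p + 3 * q ^ 3 + (roof q σ (p + 3 * q ^ 3) - q ^ 3)) : q ^ 3 ≤ port q σ p x := by
  unfold port
  apply le_min
  · exact h3.trans (roof_ge h0 σ h1 h2)
  · apply le_min
    · linarith
    · linarith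

theorem fits_leverLo {q : ℚ} (h0 : 0 < q) (h1 : q ≤ 1 / 2 ^ 20) (σ : Bool) :
    Fits (leverSh q σ).lo (leverLo q σ) := by
  have hsep := sep_TLQ h0 h1 σ
  obtain ⟨h2, h3, h4, h5, h6⟩ := smalls h0 h1 σ
  obtain ⟨r1, r2, r3, r4, r5, r6⟩ := smallsR h0 h1 σ
  have hf : ∀ x : ℝ, (leverSh q σ).lo x = max (max (cham q 0 x) (tents (q ^ 3) ((TLQ q σ).map cst) x))
      (max (port q σ (10 / 32) x) (port q σ (30 / 32) x)) := by
    intro x
    rw [← cast_TLQ]
    rfl
  -- the ends of the roofs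
  have a1 : roof q σ (10 / 32 - 3 * q ^ 3) = q + 3 * sg σ * (q : ℝ) ^ 4 := by
    rw [roof_left σ (by linarith only [r2])]
    ring
  have b1 : roof q σ (10 / 32 + 3 * q ^ 3) = q - 3 * sg σ * (q : ℝ) ^ 4 := by
    rw [roof_left σ (by linarith only [r3, r6])]
    ring
  have a2 : roof q σ (30 / 32 - 3 * q ^ 3) = q - 3 * sg σ * (q : ℝ) ^ 4 := by
    rw [roof_right σ (by linarith only [r3, r6])]
    ring
  have b2 : roof q σ (30 / 32 + 3 * q ^ 3) = q + 3 * sg σ * (q : ℝ) ^ 4 := by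
    rw [roof_right σ (by linarith only [r2])]
    ring
  have P1l : ∀ x : ℝ, x ≤ 10 / 32 - 3 * q ^ 3 - (q + 3 * sg σ * (q : ℝ) ^ 4 - q ^ 3) →
      port q σ (10 / 32) x ≤ q ^ 3 := by
    intro x hx
    apply port_left
    rwa [a1]
  have P1r : ∀ x : ℝ, 10 / 32 + 3 * q ^ 3 + (q - 3 * sg σ * (q : ℝ) ^ 4 - q ^ 3) ≤ x →
      port q σ (10 / 32) x ≤ q ^ 3 := by
    intro x hx
    apply port_right
    rwa [b1]
  have P2l : ∀ x : ℝ, x ≤ 30 / 32 - 3 * q ^ 3 - (q - 3 * sg σ * (q : ℝ) ^ 4 - q ^ 3) →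
      port q σ (30 / 32) x ≤ q ^ 3 := by
    intro x hx
    apply port_left
    rwa [a2]
  have P2r : ∀ x : ℝ, 30 / 32 + 3 * q ^ 3 + (q + 3 * sg σ * (q : ℝ) ^ 4 - q ^ 3) ≤ x →
      port q σ (30 / 32) x ≤ q ^ 3 := by
    intro x hx
    apply port_right
    rwa [b2]
  have Tl : ∀ x : ℝ, x ≤ 10 / 32 + 3 * q ^ 3 + (q - 3 * sg σ * (q : ℝ) ^ 4 - q ^ 3) →
      tents (q ^ 3) ((TLQ q σ).map cst) x = q ^ 3 := by
    intro x hx
    have := tents_left hsep (x := x) (by push_cast; exact hx)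
    push_cast at this
    exact this
  have Tr : ∀ x : ℝ, 30 / 32 - 3 * q ^ 3 - (q - 3 * sg σ * (q : ℝ) ^ 4 - q ^ 3) ≤ x →
      tents (q ^ 3) ((TLQ q σ).map cst) x = q ^ 3 := by
    intro x hx
    have := tents_right hsep (x := x) (by push_cast; exact hx)
    push_cast at this
    exact this
  have Tg : ∀ x : ℝ, (q : ℝ) ^ 3 ≤ tents (q ^ 3) ((TLQ q σ).map cst) x := fun x => le_tents _ _ _
  have C : ∀ x : ℝ, 7 * (q : ℝ) ^ 3 ≤ x → x ≤ 1 - 7 * q ^ 3 → cham q 0 x ≤ q ^ 3 := by
    intro x hx hx'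
    unfold cham
    apply max_le r2.le
    apply max_le
    · linarith only [hx]
    · apply (min_le_right _ _).trans
      linarith only [hx']
  rw [leverLo_eq]
  rw [fits_cons]
  refine ⟨?_, ?_⟩
  · -- the left chamfer
    apply fit_slope (-1)
    · simp only
      linarith only [h2]
    · simp only
      push_cast
      ring
    · intro x hx1 hx2
      simp only at hx1 hx2 ⊢
      push_cast at hx1 hx2 ⊢
      rw [hf, Tl x (by linarith only [r2, r3, r5, hx2])]
      have c1 : cham q 0 x = 8 * q ^ 3 - x := by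
        unfold cham
        rw [max_eq_right, max_eq_left]
        · ring
        · apply (min_le_right _ _).trans
          linarith only [r3, r6, hx2]
        · apply le_trans _ (le_max_left _ _)
          linarith only [r2, hx2]
      rw [c1, max_eq_left (by linarith only [hx2] : (q : ℝ) ^ 3 ≤ 8 * q ^ 3 - x), max_eq_left]
      · ring
      · apply max_le
        · linarith only [hx2, P1l x (by linarith)]
        · linarith only [hx2, P2l x (by linarith)]
  have hport1 : portPts q (10 / 32) (q + 3 * sg σ * q ^ 4) (q - 3 * sg σ * q ^ 4) =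
      (10 / 32 - 3 * q ^ 3 - (q + 3 * sg σ * q ^ 4 - q ^ 3), q ^ 3) ::
      [(10 / 32 - 3 * q ^ 3, q + 3 * sg σ * q ^ 4), (10 / 32 + 3 * q ^ 3, q - 3 * sg σ * q ^ 4),
        (10 / 32 + 3 * q ^ 3 + (q - 3 * sg σ * q ^ 4 - q ^ 3), q ^ 3)] := rfl
  have hport2 : portPts q (30 / 32) (q - 3 * sg σ * q ^ 4) (q + 3 * sg σ * q ^ 4) =
      (30 / 32 - 3 * q ^ 3 - (q - 3 * sg σ * q ^ 4 - q ^ 3), q ^ 3) ::
      [(30 / 32 - 3 * q ^ 3, q - 3 * sg σ * q ^ 4), (30 / 32 + 3 * q ^ 3, q + 3 * sg σ * q ^ 4),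
        (30 / 32 + 3 * q ^ 3 + (q + 3 * sg σ * q ^ 4 - q ^ 3), q ^ 3)] := rfl
  have hhalf : q ≤ 1 / 2 := by linarith only [h1]
  have f1 : Fits (leverSh q σ).lo
      (portPts q (10 / 32) (q + 3 * sg σ * q ^ 4) (q - 3 * sg σ * q ^ 4)) := by
    apply fits_port h0 hhalf σ
    · push_cast
      exact a1.symm
    · push_cast
      exact b1.symm
    · linarith only [h2, h3, h4]
    · linarith only [h2, h3, h5]
    · intro x hx1 hx2
      push_cast at hx1 hx2 ⊢
      rw [roof_left σ (by linarith only [r3, r6, hx2])]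
      field_simp
      ring
    · intro x hx1 hx2
      push_cast at hx1 hx2 ⊢
      rw [hf, Tl x hx2]
      have c1 := C x (by linarith only [r3, r5, r6, hx1]) (by linarith only [r3, r4, r6, hx2])
      have c2 := P2l x (by linarith only [r3, r4, r6, hx2])
      have c3 := port_ge r1 (by linarith only [r2, r3]) σ (p := 10 / 32) (x := x) (by linarith only [r3, r5, r6, hx1]) (by linarith only [r3, r4, r6, hx2])
        (by rw [a1]; exact hx1) (by rw [b1]; exact hx2)
      rw [max_eq_right c1, max_eq_left (c2.trans c3), max_eq_right c3]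
  have f2 : Fits (leverSh q σ).lo
      (portPts q (30 / 32) (q - 3 * sg σ * q ^ 4) (q + 3 * sg σ * q ^ 4)) := by
    apply fits_port h0 hhalf σ
    · push_cast
      exact a2.symm
    · push_cast
      exact b2.symm
    · linarith only [h2, h3, h5]
    · linarith only [h2, h3, h4]
    · intro x hx1 hx2
      push_cast at hx1 hx2 ⊢
      rw [roof_right σ (by linarith only [r3, r6, hx1])]
      field_simp
      ring
    · intro x hx1 hx2
      push_cast at hx1 hx2 ⊢
      rw [hf, Tr x hx1]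
      have c1 := C x (by linarith only [r3, r4, r6, hx1]) (by linarith only [r3, r5, r6, hx2])
      have c2 := P1r x (by linarith only [r3, r4, r6, hx1])
      have c3 := port_ge r1 (by linarith only [r2, r3]) σ (p := 30 / 32) (x := x) (by linarith only [r3, r4, r6, hx1]) (by linarith only [r3, r5, r6, hx2])
        (by rw [a2]; exact hx1) (by rw [b2]; exact hx2)
      rw [max_eq_right c1, max_eq_right (c2.trans c3), max_eq_right c3]
  rw [hport1, List.cons_append, fits_cons]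
  refine ⟨?_, ?_⟩
  · apply fit_slope 0
    · simp only
      linarith only [h1, h3, h5]
    · simp
    · intro x hx1 hx2
      simp only at hx1 hx2 ⊢
      push_cast at hx1 hx2 ⊢
      have c1 := C x hx1 (by linarith only [r2, r3, r4, hx2])
      have c2 := P1l x (by linarith only [hx2])
      have c3 := P2l x (by linarith only [r3, r4, r6, hx2])
      rw [hf, Tl x (by linarith only [r2, r3, hx2]), max_eq_right c1, max_eq_left (max_le c2 c3)]
      ring
  rw [← List.cons_append, ← hport1]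
  refine fits_join (x := (10 / 32 + 3 * q ^ 3 + (q - 3 * sg σ * q ^ 4 - q ^ 3), q ^ 3)) f1 rfl ?_
  rw [hport2, List.cons_append, ← List.cons_append, fits_append]
  refine ⟨?_, ?_⟩
  · apply fits_tents hsep
    intro x hx1 hx2
    push_cast at hx1 hx2 ⊢
    have c1 := C x (by linarith only [r2, r3, r5, hx1]) (by linarith only [r2, r3, r5, hx2])
    have c2 := P1r x (by linarith only [hx1])
    have c3 := P2l x (by linarith only [hx2])
    have c4 := Tg x
    rw [hf, max_eq_right (c1.trans c4), max_eq_left ((max_le c2 c3).trans c4)]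
  rw [← List.cons_append, ← hport2]
  refine fits_join (x := (30 / 32 + 3 * q ^ 3 + (q + 3 * sg σ * q ^ 4 - q ^ 3), q ^ 3)) f2 rfl ?_
  rw [fits_cons, fits_cons]
  refine ⟨?_, ?_, fits_singleton _ _⟩
  · apply fit_slope 0
    · simp only
      linarith only [h1, h3, h5]
    · simp
    · intro x hx1 hx2
      simp only at hx1 hx2 ⊢
      push_cast at hx1 hx2 ⊢
      have c1 := C x (by linarith only [r2, r3, r4, hx1]) hx2
      have c2 := P1r x (by linarith only [r3, r4, r6, hx1])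
      have c3 := P2r x (by linarith only [hx1])
      rw [hf, Tr x (by linarith only [r2, r3, hx1]), max_eq_right c1, max_eq_left (max_le c2 c3)]
      ring
  · apply fit_slope 1
    · simp only
      linarith only [h2]
    · simp only
      push_cast
      ring
    · intro x hx1 hx2
      simp only at hx1 hx2 ⊢
      push_cast at hx1 hx2 ⊢
      have c2 := P1r x (by linarith only [r3, r4, r6, hx1])
      have c3 := P2r x (by linarith only [r3, r5, r6, hx1])
      have c4 : cham q 0 x = x - 1 + 8 * q ^ 3 := by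
        unfold cham
        rw [min_eq_right (by linarith only [hx2]), max_eq_right, max_eq_right]
        · linarith only [r3, r6, hx1]
        · apply le_trans _ (le_max_right _ _)
          linarith only [r2, hx1]
      rw [hf, Tr x (by linarith only [r2, r3, r5, hx1]), c4, max_eq_left (by linarith only [hx1] : (q : ℝ) ^ 3 ≤ x - 1 + 8 * q ^ 3),
        max_eq_left]
      · ring
      · apply max_le
        · linarith only [hx1, c2]
        · linarith only [hx1, c3]

theorem pivR {q : ℚ} (h0 : 0 < q) (h1 : q ≤ 1 / 2 ^ 20) (σ : Bool) :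
    ((pivQ q σ : ℚ) : ℝ) = piv q σ ∧ 0 < pivQ q σ ∧ pivQ q σ ≤ 1 / 2 ∧
      0 < piv (q : ℝ) σ ∧ piv (q : ℝ) σ ≤ 1 / 2 := by
  obtain ⟨h2, h3, h4, h5, h6⟩ := smalls h0 h1 σ
  have e : ((pivQ q σ : ℚ) : ℝ) = piv q σ := by
    unfold pivQ piv
    push_cast
    ring
  have h7 : 0 < pivQ q σ ∧ pivQ q σ ≤ 1 / 2 := by
    unfold pivQ
    cases σ
    · simp only [sg]
      push_cast
      constructor <;> linarith only [h2, h3, h1]
    · simp only [sg]
      push_cast
      constructor <;> linarith only [h2, h3, h1]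
  refine ⟨e, h7.1, h7.2, ?_, ?_⟩
  · rw [← e]
    exact_mod_cast h7.1
  · rw [← e]
    have : ((pivQ q σ : ℚ) : ℝ) ≤ ((1 / 2 : ℚ) : ℝ) := by exact_mod_cast h7.2
    push_cast at this
    exact this

theorem fits_leverHi {q : ℚ} (h0 : 0 < q) (h1 : q ≤ 1 / 2 ^ 20) (σ : Bool) :
    Fits (leverSh q σ).hi (leverHi q σ) := by
  obtain ⟨h2, h3, h4, h5, h6⟩ := smalls h0 h1 σ
  obtain ⟨r1, r2, r3, r4, r5, r6⟩ := smallsR h0 h1 σ
  obtain ⟨e, p1, p2, p3, p4⟩ := pivR h0 h1 σ
  have hf : ∀ x : ℝ, (leverSh q σ).hi x =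
      min (1 - cham q 0 x) (piv q σ + (1 - piv q σ) * |x - 20 / 32| / (2 * q ^ 3)) := fun x => rfl
  -- away from the notch
  have far : ∀ x : ℝ, 2 * (q : ℝ) ^ 3 ≤ |x - 20 / 32| →
      1 ≤ piv q σ + (1 - piv q σ) * |x - 20 / 32| / (2 * q ^ 3) := by
    intro x hx
    have : (1 - piv (q : ℝ) σ) ≤ (1 - piv q σ) * |x - 20 / 32| / (2 * q ^ 3) := by
      rw [le_div_iff₀ (by linarith only [r2])]
      exact mul_le_mul_of_nonneg_left hx (by linarith only [p4])
    linarith only [this]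
  have near : ∀ x : ℝ, |x - 20 / 32| ≤ 2 * (q : ℝ) ^ 3 →
      piv q σ + (1 - piv q σ) * |x - 20 / 32| / (2 * q ^ 3) ≤ 1 := by
    intro x hx
    have : (1 - piv q σ) * |x - 20 / 32| / (2 * q ^ 3) ≤ (1 - piv (q : ℝ) σ) := by
      rw [div_le_iff₀ (by linarith only [r2])]
      exact mul_le_mul_of_nonneg_left hx (by linarith only [p4])
    linarith only [this]
  have C0 : ∀ x : ℝ, 8 * (q : ℝ) ^ 3 ≤ x → x ≤ 1 - 8 * q ^ 3 → cham q 0 x = 0 := by
    intro x hx hx'
    unfold cham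
    apply max_eq_left
    apply max_le
    · linarith only [hx]
    · apply (min_le_right _ _).trans
      linarith only [hx']
  have Cn : ∀ x : ℝ, 0 ≤ cham q 0 x := fun x => le_max_left _ _
  unfold leverHi
  rw [fits_cons, fits_cons, fits_cons, fits_cons, fits_cons, fits_cons]
  refine ⟨?_, ?_, ?_, ?_, ?_, ?_, fits_singleton _ _⟩
  · apply fit_slope 1
    · simp only
      linarith only [h2]
    · simp only
      push_cast
      ring
    · intro x hx1 hx2
      simp only at hx1 hx2 ⊢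
      push_cast at hx1 hx2 ⊢
      have c1 : cham q 0 x = 8 * q ^ 3 - x := by
        unfold cham
        rw [max_eq_right, max_eq_left]
        · ring
        · apply (min_le_right _ _).trans
          linarith only [r3, r6, hx2]
        · apply le_trans _ (le_max_left _ _)
          linarith only [hx2]
      have c2 := far x (by rw [abs_of_nonpos (by linarith only [r3, r6, hx2])]; linarith only [r3, r6, hx2])
      rw [hf, c1, min_eq_left (by linarith only [hx2, c2])]
      ring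
  · apply fit_slope 0
    · simp only
      linarith only [h1, h3]
    · simp
    · intro x hx1 hx2
      simp only at hx1 hx2 ⊢
      push_cast at hx1 hx2 ⊢
      have c1 := C0 x hx1 (by linarith only [r3, r6, hx2])
      have c2 := far x (by rw [abs_of_nonpos (by linarith only [r2, hx2])]; linarith only [hx2])
      rw [hf, c1, sub_zero, min_eq_left c2]
      ring
  · apply fit_slope (-(1 - piv q σ) / (2 * q ^ 3))
    · simp only
      linarith only [h2]
    · simp only
      push_cast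
      rw [e]
      field_simp
      ring
    · intro x hx1 hx2
      simp only at hx1 hx2 ⊢
      push_cast at hx1 hx2 ⊢
      have c1 := C0 x (by linarith only [r3, r6, hx1]) (by linarith only [r3, r6, hx2])
      have c0 : |x - 20 / 32| = 20 / 32 - x := by
        rw [abs_of_nonpos (by linarith only [hx2])]
        ring
      have c2 := near x (by rw [c0]; linarith only [hx1])
      rw [hf, c1, sub_zero, min_eq_right c2, c0]
      field_simp
      ring
  · apply fit_slope ((1 - piv q σ) / (2 * q ^ 3))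
    · simp only
      linarith only [h2]
    · simp only
      push_cast
      rw [e]
      field_simp
      ring
    · intro x hx1 hx2
      simp only at hx1 hx2 ⊢
      push_cast at hx1 hx2 ⊢
      have c1 := C0 x (by linarith only [r3, r6, hx1]) (by linarith only [r3, r6, hx2])
      have c0 : |x - 20 / 32| = x - 20 / 32 := by
        rw [abs_of_nonneg (by linarith only [hx1])]
      have c2 := near x (by rw [c0]; linarith only [hx2])
      rw [hf, c1, sub_zero, min_eq_right c2, c0, e]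
      field_simp
  · apply fit_slope 0
    · simp only
      linarith only [h1, h3]
    · simp
    · intro x hx1 hx2
      simp only at hx1 hx2 ⊢
      push_cast at hx1 hx2 ⊢
      have c1 := C0 x (by linarith only [r3, r6, hx1]) hx2
      have c2 := far x (by rw [abs_of_nonneg (by linarith only [r2, hx1])]; linarith only [hx1])
      rw [hf, c1, sub_zero, min_eq_left c2]
      ring
  · apply fit_slope (-1)
    · simp only
      linarith only [h2]
    · simp only
      push_cast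
      ring
    · intro x hx1 hx2
      simp only at hx1 hx2 ⊢
      push_cast at hx1 hx2 ⊢
      have c1 : cham q 0 x = x - 1 + 8 * q ^ 3 := by
        unfold cham
        rw [min_eq_right (by linarith only [hx2]), max_eq_right, max_eq_right]
        · linarith only [r3, r6, hx1]
        · apply le_trans _ (le_max_right _ _)
          linarith only [hx1]
      have c2 := far x (by rw [abs_of_nonneg (by linarith only [r3, r6, hx1])]; linarith only [r3, r6, hx1])
      rw [hf, c1, min_eq_left (by linarith only [hx1, c2])]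
      ring

theorem p8 : P8Stmt := by
  intro m σ hm
  have h0 := qq_pos m
  have h1 := qq_le hm
  have f1 := fits_leverLo h0 h1 σ
  have f2 := fits_leverHi h0 h1 σ
  refine ⟨strictX_of_fits f1, strictX_of_fits f2, ?_⟩
  intro x hx1 hx2
  rw [← cast_qq]
  refine ⟨val_of_fits (p := (0, 8 * qq m ^ 3)) (q := (1, 8 * qq m ^ 3)) f1 ?_ ?_ ?_ x ?_ ?_,
    val_of_fits (p := (0, 1 - 8 * qq m ^ 3)) (q := (1, 1 - 8 * qq m ^ 3)) f2 rfl rfl ?_ x ?_ ?_⟩
  · rw [leverLo_eq]
    rfl
  · unfold leverLo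
    rw [List.getLast?_append_of_ne_nil _ (by simp)]
    rfl
  · norm_num
  · simpa using hx1
  · simpa using hx2
  · norm_num
  · simpa using hx1
  · simpa using hx2

end Pool.Agent.Helper15_Pack
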