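import Pool.Agent.Helper15_Pack.P4
import Pool.Agent.Helper15_Pack.P6
import Pool.Agent.Helper15_Pack.P8

/-!
# The polygons of the shapes
-/

namespace Pool.Agent.Helper15_Pack

open Pool.Agent.Helper2_Pack

theorem tents_le {g B : ℝ} {L : List (ℝ × ℝ)} (h0 : g ≤ B) (h : ∀ d ∈ L, d.2 ≤ B) (x : ℝ) :
    tents g L x ≤ B := by
  induction L with
  | nil => exact h0
  | cons d L ih =>
    rw [tents_cons]
    apply max_le
    · have := h d List.mem_cons_self
      have := abs_nonneg (x - d.1)
      linarith
    · exact ih fun d hd => h d (List.mem_cons_of_mem _ hd)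

theorem cham_le {q xl x : ℝ} (h0 : 0 ≤ q) (h1 : xl ≤ x) : cham q xl x ≤ 8 * q ^ 3 := by
  have : 0 ≤ q ^ 3 := by positivity
  unfold cham
  apply max_le (by linarith)
  apply max_le (by linarith)
  exact min_le_left _ _

theorem tile_lt {q : ℚ} (h0 : 0 < q) (h1 : q ≤ 1 / 2 ^ 20) (t : Tile) {x : ℝ}
    (hx : t.xl q ≤ x) : (t.sh q).lo x < (t.sh q).hi x := by
  obtain ⟨r1, r2, r3, r4, r5, r6⟩ := smallsR h0 h1 true
  have c := cham_le r1.le hx
  have h2 : (t.sh q).lo x ≤ 1 / 4 := by
    apply max_le
    · linarith only [r3, r6, c]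
    · apply tents_le
      · unfold Tile.base
        split_ifs <;> linarith only [r3, r6]
      · intro d hd
        obtain ⟨p, _, rfl⟩ := List.mem_map.1 hd
        split_ifs <;> (simp only; linarith only [r3, r6])
  have h3 : 1 / 2 ≤ (t.sh q).hi x := by
    have : (t.sh q).hi x =
      tents 1 (t.top.marks.map fun p : ℕ => ((p : ℝ) / 32, 1 + (q : ℝ))) x - cham q (t.xl q) x := rfl
    rw [this]
    have := le_tents 1 (t.top.marks.map fun p : ℕ => ((p : ℝ) / 32, 1 + (q : ℝ))) x
    linarith only [r3, r6, c, this]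
  linarith only [h2, h3]

theorem lever_lt {q : ℚ} (h0 : 0 < q) (h1 : q ≤ 1 / 2 ^ 20) (σ : Bool) {x : ℝ}
    (hx : 0 ≤ x) (hx' : x ≤ 1) : (leverSh q σ).lo x < (leverSh q σ).hi x := by
  obtain ⟨r1, r2, r3, r4, r5, r6⟩ := smallsR h0 h1 σ
  obtain ⟨e, p1, p2, p3, p4⟩ := pivR h0 h1 σ
  have hsep := sep_TLQ h0 h1 σ
  have c := cham_le r1.le hx
  have hlo : (leverSh q σ).lo x = max (max (cham q 0 x) (tents (q ^ 3) ((TLQ q σ).map cst) x))
      (max (port q σ (10 / 32) x) (port q σ (30 / 32) x)) := by
    rw [← cast_TLQ]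
    rfl
  have hhi : (leverSh q σ).hi x =
      min (1 - cham q 0 x) (piv q σ + (1 - piv q σ) * |x - 20 / 32| / (2 * q ^ 3)) := rfl
  have a1 : roof q σ (10 / 32 + 3 * q ^ 3) = q - 3 * sg σ * (q : ℝ) ^ 4 := by
    rw [roof_left σ (by linarith only [r3, r6])]
    ring
  have a2 : roof q σ (30 / 32 - 3 * q ^ 3) = q - 3 * sg σ * (q : ℝ) ^ 4 := by
    rw [roof_right σ (by linarith only [r3, r6])]
    ring
  have hroof : roof q σ x ≤ 1 / 4 := by
    unfold roof piv
    have h3 : |x - 20 / 32| ≤ 20 / 32 := by
      rw [abs_le]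
      constructor <;> linarith only [hx, hx']
    have h4 : 0 ≤ |x - 20 / 32| := abs_nonneg _
    rcases sg_cases σ with h | h
    · rw [h]
      nlinarith only [r6, r2, r3, h3]
    · rw [h]
      nlinarith only [r6, r2, r3, h4]
  have hpiv : (q : ℝ) / 2 ≤ piv q σ := by
    unfold piv
    rcases sg_cases σ with h | h
    · rw [h]
      linarith only [r2, r3]
    · rw [h]
      linarith only [r2, r3]
  rcases le_total (2 * (q : ℝ) ^ 3) |x - 20 / 32| with hfar | hnear
  · have h2 : (leverSh q σ).lo x ≤ 1 / 4 := by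
      rw [hlo]
      apply max_le
      · apply max_le
        · linarith only [r3, r6, c]
        · rw [← cast_TLQ]
          apply tents_le
          · linarith only [r3, r6]
          · intro d hd
            split_ifs at hd
            · simp at hd
            · simp only [List.mem_cons, List.not_mem_nil, or_false] at hd
              rcases hd with rfl | rfl
              · simp only
                linarith only [r3, r6]
              · simp only
                linarith only [r3, r6]
      · apply max_le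
        · exact (min_le_left _ _).trans hroof
        · exact (min_le_left _ _).trans hroof
    have h3 : 1 / 2 ≤ (leverSh q σ).hi x := by
      rw [hhi]
      apply le_min
      · linarith only [r3, r6, c]
      · have : (1 - piv (q : ℝ) σ) ≤ (1 - piv q σ) * |x - 20 / 32| / (2 * q ^ 3) := by
          rw [le_div_iff₀ (by linarith only [r2])]
          exact mul_le_mul_of_nonneg_left hfar (by linarith only [p4])
        linarith only [this]
    linarith only [h2, h3]
  · have h5 := abs_le.1 hnear
    have h2 : (leverSh q σ).lo x ≤ (q : ℝ) ^ 3 := by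
      rw [hlo]
      apply max_le
      · apply max_le
        · unfold cham
          apply max_le r2.le
          apply max_le
          · linarith only [r3, r6, h5.1]
          · apply (min_le_right _ _).trans
            linarith only [r3, r6, h5.2]
        · cases σ
          · have e : (TLQ q false).map cst = [((13 / 32 : ℝ), (q : ℝ) + 2 * (q : ℝ) ^ 3),
                ((26 / 32 : ℝ), (q : ℝ) + 2 * (q : ℝ) ^ 3)] := by
              rw [← cast_TLQ]
              simp
            rw [e, tents_cons, tents_cons]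
            apply max_le
            · simp only
              rw [abs_of_nonneg (by linarith only [r3, r6, h5.1])]
              linarith only [r3, r6, h5.1]
            · apply max_le
              · simp only
                rw [abs_of_nonpos (by linarith only [r3, r6, h5.2])]
                linarith only [r3, r6, h5.2]
              · exact le_rfl
          · exact le_rfl
      · apply max_le
        · apply port_right
          rw [a1]
          linarith only [r3, r4, r6, h5.1]
        · apply port_left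
          rw [a2]
          linarith only [r3, r4, r6, h5.2]
    have h3 : (q : ℝ) / 2 ≤ (leverSh q σ).hi x := by
      rw [hhi]
      apply le_min
      · linarith only [r3, r6, c]
      · have : 0 ≤ (1 - piv q σ) * |x - 20 / 32| / (2 * q ^ 3) := by
          apply div_nonneg
          · exact mul_nonneg (by linarith only [p4]) (abs_nonneg _)
          · linarith only [r2]
        linarith only [hpiv, this]
    linarith only [r2, r3, h2, h3]

theorem p1 : P1Stmt := by
  intro m s hm
  have h0 := qq_pos m
  have h1 := qq_le hm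
  rw [← cast_qq]
  -- it is enough to know the polygon before the translation
  have key : ∀ P : Polygon, ∀ R : Set ℂ, IsSimple P → region P = R →
      IsSimple (translate m P) ∧ region (translate m P) =
        (fun z : ℂ => z + ⟨shift m, shift m⟩) '' R := by
    intro P R hP hR
    have := p6 P (shift m) (shift m) hP
    rw [hR] at this
    exact this
  cases s with
  | tile t =>
    have f1 := fits_lo h0 h1 t
    have f2 := fits_hi h0 h1 t
    have hxx := xl_lt_xr h0 h1 t
    have v1 := val_of_fits f1 (head_lo _ _) (last_lo _ _) hxx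
    have v2 := val_of_fits f2 (head_hi _ _) (last_hi _ _) hxx
    obtain ⟨k1, k2⟩ := p4 (t.loPts (qq m)) (t.hiPts (qq m)) (xlQ (qq m) t) (xrQ (qq m) t)
      (strictX_of_fits f1) (strictX_of_fits f2) hxx ⟨_, head_lo _ _⟩ ⟨_, head_hi _ _⟩
      ⟨_, last_lo _ _⟩ ⟨_, last_hi _ _⟩ (by
        intro x hx1 hx2
        rw [v1 x hx1 hx2, v2 x hx1 hx2]
        apply tile_lt h0 h1
        rw [cast_xl]
        exact hx1)
    apply key _ _ k1
    rw [k2]
    ext z
    simp only [Set.mem_setOf_eq, Shp.reg, Shp.sh, Sh.reg]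
    have e1 : (t.sh (qq m : ℝ)).xl = (xlQ (qq m) t : ℝ) := cast_xl _ _
    have e2 : (t.sh (qq m : ℝ)).xr = (xrQ (qq m) t : ℝ) := cast_xr _ _
    rw [e1, e2]
    constructor
    · rintro ⟨g1, g2, g3, g4⟩
      rw [v1 _ g1 g2] at g3
      rw [v2 _ g1 g2] at g4
      exact ⟨g1, g2, g3, g4⟩
    · rintro ⟨g1, g2, g3, g4⟩
      rw [v1 _ g1 g2, v2 _ g1 g2]
      exact ⟨g1, g2, g3, g4⟩
  | lever σ =>
    obtain ⟨s1, s2, hv⟩ := p8 m σ hm
    rw [← cast_qq] at hv
    obtain ⟨k1, k2⟩ := p4 (leverLo (qq m) σ) (leverHi (qq m) σ) 0 1 s1 s2 (by norm_num)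
      ⟨8 * qq m ^ 3, by rw [leverLo_eq]; rfl⟩ ⟨1 - 8 * qq m ^ 3, rfl⟩
      ⟨8 * qq m ^ 3, by
        unfold leverLo
        rw [List.getLast?_append_of_ne_nil _ (by simp)]
        rfl⟩ ⟨1 - 8 * qq m ^ 3, rfl⟩ (by
        intro x hx1 hx2
        rw [Rat.cast_zero] at hx1
        rw [Rat.cast_one] at hx2
        rw [(hv x hx1 hx2).1, (hv x hx1 hx2).2]
        exact lever_lt h0 h1 σ hx1 hx2)
    apply key _ _ k1
    rw [k2]
    ext z
    simp only [Set.mem_setOf_eq, Shp.reg, Shp.sh, Sh.reg, Rat.cast_zero, Rat.cast_one]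
    have e1 : (leverSh (qq m : ℝ) σ).xl = 0 := rfl
    have e2 : (leverSh (qq m : ℝ) σ).xr = 1 := rfl
    rw [e1, e2]
    constructor
    · rintro ⟨g1, g2, g3, g4⟩
      rw [(hv _ g1 g2).1] at g3
      rw [(hv _ g1 g2).2] at g4
      exact ⟨g1, g2, g3, g4⟩
    · rintro ⟨g1, g2, g3, g4⟩
      rw [(hv _ g1 g2).1, (hv _ g1 g2).2]
      exact ⟨g1, g2, g3, g4⟩

end Pool.Agent.Helper15_Pack
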