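import Pool.Agent.Helper15_Pack.Poly

/-!
# Polygons between two chains
-/

namespace Pool.Agent.Helper15_Pack

open Pool.Agent.Helper2_Pack

theorem p4 : P4Stmt := by
  rintro L U a b hL hU hab ⟨y1, hL1⟩ ⟨y2, hU1⟩ ⟨y3, hL2⟩ ⟨y4, hU2⟩ hlt
  have hab' : (a : ℝ) < b := by exact_mod_cast hab
  have v1 := val_head hL hL1
  have v2 := val_head hU hU1
  have v3 := val_last hL hL1 hL2
  have v4 := val_last hU hU1 hU2
  simp only at v1 v2 v3 v4
  have y12 : y1 < y2 := by
    have := hlt a le_rfl hab'.le
    rw [v1, v2] at this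
    exact_mod_cast this
  have y34 : y3 < y4 := by
    have := hlt b hab'.le le_rfl
    rw [v3, v4] at this
    exact_mod_cast this
  have hUr1 : U.reverse.head? = some (b, y4) := by rw [List.head?_reverse, hU2]
  have hUr2 : U.reverse.getLast? = some (a, y2) := by rw [List.getLast?_reverse, hU1]
  have hLne : L ≠ [] := by
    rintro rfl
    simp at hL1
  have hUne : U.reverse ≠ [] := by
    intro h
    rw [h] at hUr1
    simp at hUr1
  have hE : edges (L ++ U.reverse) =
      path L ++ ((b, y3), (b, y4)) :: (path U.reverse ++ [((a, y2), (a, y1))]) := by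
    rw [edges_glue (p := (a, y1)) (q := (a, y2)), path_glue hL2 hUr1]
    · simp
    · rw [List.head?_append_of_ne_nil _ hLne, hL1]
    · rw [List.getLast?_append_of_ne_nil _ hUne, hUr2]
  have memL := mem_ends hL hL1 hL2 hab
  have memU := mem_ends hU hU1 hU2 hab
  have memB : ∀ z : ℂ, z ∈ segment ℝ (pt (b, y3)) (pt (b, y4)) ↔
      z.re = b ∧ (y3 : ℝ) ≤ z.im ∧ z.im ≤ y4 := fun z =>
    mem_vert (p := (b, y3)) (r := (b, y4)) rfl y34.le z
  have memA : ∀ z : ℂ, z ∈ segment ℝ (pt (a, y2)) (pt (a, y1)) ↔
      z.re = a ∧ (y1 : ℝ) ≤ z.im ∧ z.im ≤ y2 := by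
    intro z
    rw [segment_symm]
    exact mem_vert (p := (a, y1)) (r := (a, y2)) rfl y12.le z
  refine ⟨?_, ?_⟩
  · apply simple_of
    · have h1 : 2 ≤ L.length := by
        rcases L with _ | ⟨p, _ | ⟨r, L⟩⟩
        · simp at hL1
        · simp only [List.head?_cons, List.getLast?_singleton] at hL1 hL2
          rw [hL1] at hL2
          simp only [Option.some.injEq, Prod.mk.injEq] at hL2
          exact absurd hL2.1 hab.ne
        · simp
      have h2 : 1 ≤ U.reverse.length := List.length_pos_of_ne_nil hUne
      rw [List.length_append]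
      omega
    · rw [hE]
      intro e he
      simp only [List.mem_append, List.mem_cons, List.not_mem_nil, or_false] at he
      rcases he with he | rfl | he | rfl
      · have := (path_ends hL hL1 hL2 he).1
        intro h
        rw [h] at this
        exact lt_irrefl _ this
      · simp [y34.ne]
      · have := (path_ends hU hU1 hU2 (mem_path_reverse.1 he)).1
        simp only [Prod.fst_swap, Prod.snd_swap] at this
        intro h
        rw [h] at this
        exact lt_irrefl _ this
      · simp [y12.ne']
    · rw [hE, List.pairwise_append, List.pairwise_cons, List.pairwise_append]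
      refine ⟨pairwise_chain hL, ⟨?_, pairwise_path_reverse (pairwise_chain hU), by simp, ?_⟩, ?_⟩
      · intro f hf z hz1 hz2
        rw [memB] at hz1
        rcases List.mem_append.1 hf with hf | hf
        · rw [segment_symm] at hz2
          obtain ⟨h1, h2⟩ := path_right hU hU1 hU2 (mem_path_reverse.1 hf) hz2 hz1.1.ge
          left
          simp only [Prod.snd_swap] at h1 h2
          refine ⟨by rw [h1, h2], h2.symm⟩
        · simp only [List.mem_cons, List.not_mem_nil, or_false] at hf
          subst hf
          rw [memA] at hz2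
          linarith [hz1.1, hz2.1]
      · intro e he f hf z hz1 hz2
        simp only [List.mem_cons, List.not_mem_nil, or_false] at hf
        subst hf
        rw [memA] at hz2
        rw [segment_symm] at hz1
        obtain ⟨h1, h2⟩ := path_left hU hU1 hU2 (mem_path_reverse.1 he) hz1 hz2.1.le
        left
        exact ⟨h1, h2⟩
      · intro e he f hf z hz1 hz2
        simp only [List.mem_append, List.mem_cons, List.not_mem_nil, or_false] at hf
        rcases hf with rfl | hf | rfl
        · rw [memB] at hz2
          obtain ⟨h1, h2⟩ := path_right hL hL1 hL2 he hz1 hz2.1.ge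
          exact Or.inl ⟨h1, h2⟩
        · exfalso
          have h1 := (memL z).1 ⟨e, he, hz1⟩
          have h2 := (memU z).1 (exists_reverse.1 ⟨f, hf, hz2⟩)
          have := hlt z.re h1.1 h1.2.1
          rw [← h1.2.2, ← h2.2.2] at this
          exact lt_irrefl _ this
        · rw [memA] at hz2
          obtain ⟨h1, h2⟩ := path_left hL hL1 hL2 he hz1 hz2.1.le
          exact Or.inr ⟨h1, h2⟩
  · ext z
    rw [mem_region, hE, exists_append, exists_cons, exists_append, exists_reverse, memL, memU,
      memB, cnt_append, cnt_vert (p := (b, y3)) (q := (b, y4)) rfl, cnt_append, cnt_path_reverse,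
      cnt_vert (p := (a, y2)) (q := (a, y1)) rfl, cnt_nil, add_zero, cnt_ends hL hL1 hL2,
      cnt_ends hU hU1 hU2]
    have e1 : (∃ e ∈ [((a, y2), (a, y1))], z ∈ segment ℝ (pt e.1) (pt e.2)) ↔
        z.re = a ∧ (y1 : ℝ) ≤ z.im ∧ z.im ≤ y2 := by
      rw [← memA]
      constructor
      · rintro ⟨e, he, hz⟩
        simp only [List.mem_cons, List.not_mem_nil, or_false] at he
        subst he
        exact hz
      · intro hz
        exact ⟨_, List.mem_cons_self, hz⟩
    rw [e1]
    simp only [Set.mem_setOf_eq]
    constructor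
    · rintro ((⟨h1, h2, h3⟩ | ⟨h1, h2, h3⟩ | ⟨h1, h2, h3⟩ | ⟨h1, h2, h3⟩) | h)
      · have := hlt z.re h1 h2
        exact ⟨h1, h2, h3.ge, by linarith⟩
      · rw [h1, v3, v4]
        exact ⟨hab'.le, le_rfl, h2, h3⟩
      · have := hlt z.re h1 h2
        exact ⟨h1, h2, by linarith, h3.le⟩
      · rw [h1, v1, v2]
        exact ⟨le_rfl, hab'.le, h2, h3⟩
      · split_ifs at h with c1 c2 c2
        · exact absurd h (by decide)
        · exfalso
          apply c2
          exact ⟨c1.1, c1.2.1, c1.2.2.trans (hlt _ c1.1 c1.2.1.le)⟩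
        · refine ⟨c2.1, c2.2.1.le, ?_, c2.2.2.le⟩
          by_contra h4
          exact c1 ⟨c2.1, c2.2.1, not_le.1 h4⟩
        · exact absurd h (by decide)
    · rintro ⟨h1, h2, h3, h4⟩
      rcases eq_or_lt_of_le h2 with h5 | h5
      · rw [h5, v3] at h3
        rw [h5, v4] at h4
        exact Or.inl (Or.inr (Or.inl ⟨h5, h3, h4⟩))
      · rcases eq_or_lt_of_le h4 with h6 | h6
        · exact Or.inl (Or.inr (Or.inr (Or.inl ⟨h1, h2, h6⟩)))
        · right
          rw [if_neg, if_pos]
          · exact ⟨0, rfl⟩
          · exact ⟨h1, h5, h6⟩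
          · rintro ⟨_, _, h7⟩
            linarith

end Pool.Agent.Helper15_Pack
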