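import Pool.Agent.Helper15_Pack.Poly

/-!
# Polygons between two chains, with recesses at both ends
-/

namespace Pool.Agent.Helper15_Pack

open Pool.Agent.Helper2_Pack

/-- the corners of the recesses -/
def wall (c c' : ℚ) (n : ℕ) : List (ℚ × ℚ) :=
  (List.range n).flatMap fun i : ℕ => [(c, 2 * (i : ℚ) + 1), (c', 2 * (i : ℚ) + 1),
    (c', 2 * (i : ℚ) + 2), (c, 2 * (i : ℚ) + 2)]

/-- the edges of one recess, with the vertical edge below it -/
def four (c c' : ℚ) (n : ℕ) : List ((ℚ × ℚ) × (ℚ × ℚ)) :=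
  [((c, 2 * (n : ℚ)), (c, 2 * (n : ℚ) + 1)), ((c, 2 * (n : ℚ) + 1), (c', 2 * (n : ℚ) + 1)),
    ((c', 2 * (n : ℚ) + 1), (c', 2 * (n : ℚ) + 2)), ((c', 2 * (n : ℚ) + 2), (c, 2 * (n : ℚ) + 2))]

/-- all edges up to the height `2 n` -/
def xs (c c' : ℚ) : ℕ → List ((ℚ × ℚ) × (ℚ × ℚ))
  | 0 => []
  | n + 1 => xs c c' n ++ four c c' n

theorem path_wall (c c' : ℚ) (n : ℕ) :
    path ((c, 0) :: (wall c c' n ++ [(c, 2 * (n : ℚ) + 1)])) =
      xs c c' n ++ [((c, 2 * (n : ℚ)), (c, 2 * (n : ℚ) + 1))] := by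
  induction n with
  | zero => simp [wall, xs, path]
  | succ n ih =>
    have e1 : wall c c' (n + 1) = wall c c' n ++ [(c, 2 * (n : ℚ) + 1), (c', 2 * (n : ℚ) + 1),
        (c', 2 * (n : ℚ) + 2), (c, 2 * (n : ℚ) + 2)] := by
      unfold wall
      rw [List.range_succ, List.flatMap_append]
      simp
    rw [e1]
    have e2 : (c, (0 : ℚ)) :: (wall c c' n ++ [(c, 2 * (n : ℚ) + 1), (c', 2 * (n : ℚ) + 1),
        (c', 2 * (n : ℚ) + 2), (c, 2 * (n : ℚ) + 2)] ++ [(c, 2 * ((n + 1 : ℕ) : ℚ) + 1)]) =
        ((c, (0 : ℚ)) :: wall c c' n) ++ (c, 2 * (n : ℚ) + 1) :: [(c', 2 * (n : ℚ) + 1),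
        (c', 2 * (n : ℚ) + 2), (c, 2 * (n : ℚ) + 2), (c, 2 * ((n + 1 : ℕ) : ℚ) + 1)] := by
      simp
    rw [e2, path_append]
    rw [List.cons_append, ih, xs]
    have e3 : 2 * ((n + 1 : ℕ) : ℚ) = 2 * (n : ℚ) + 2 := by
      push_cast
      ring
    rw [e3]
    simp [path, four]

/-- the edges of a wall -/
def wp (c c' : ℚ) (n : ℕ) : List ((ℚ × ℚ) × (ℚ × ℚ)) :=
  xs c c' n ++ [((c, 2 * (n : ℚ)), (c, 2 * (n : ℚ) + 1))]

theorem mem_hor {c c' : ℚ} (h : c ≠ c') (y : ℚ) (z : ℂ) :
    z ∈ segment ℝ (pt (c, y)) (pt (c', y)) ↔ z.im = y ∧ z.re ∈ Set.uIcc (c : ℝ) c' := by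
  rcases lt_or_gt_of_ne h with h1 | h1
  · have h2 : (c : ℝ) ≤ c' := by exact_mod_cast h1.le
    rw [mem_horiz (p := (c, y)) (r := (c', y)) rfl h1, Set.uIcc_of_le h2, Set.mem_Icc]
  · have h2 : (c' : ℝ) ≤ c := by exact_mod_cast h1.le
    rw [segment_symm, mem_horiz (p := (c', y)) (r := (c, y)) rfl h1, Set.uIcc_of_ge h2,
      Set.mem_Icc]

theorem mem_ver (c : ℚ) {y y' : ℚ} (h : y ≤ y') (z : ℂ) :
    z ∈ segment ℝ (pt (c, y)) (pt (c, y')) ↔ z.re = c ∧ (y : ℝ) ≤ z.im ∧ z.im ≤ y' :=
  mem_vert (p := (c, y)) (r := (c, y')) rfl h z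

section wall

variable {c c' : ℚ} (h : c ≠ c')

include h

/-- the points of the edges of one recess -/
theorem four_iff (n : ℕ) (z : ℂ) : (∃ e ∈ four c c' n, z ∈ segment ℝ (pt e.1) (pt e.2)) ↔
    (z.re = c ∧ 2 * (n : ℝ) ≤ z.im ∧ z.im ≤ 2 * n + 1) ∨
    (z.im = 2 * n + 1 ∧ z.re ∈ Set.uIcc (c : ℝ) c') ∨
    (z.re = c' ∧ 2 * (n : ℝ) + 1 ≤ z.im ∧ z.im ≤ 2 * n + 2) ∨
    (z.im = 2 * n + 2 ∧ z.re ∈ Set.uIcc (c : ℝ) c') := by
  unfold four
  rw [exists_cons, exists_cons, exists_cons, exists_cons, mem_ver c (by linarith), mem_hor h,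
    mem_ver c' (by linarith), mem_hor h.symm, Set.uIcc_comm (c' : ℝ) c]
  push_cast
  have : ¬ ∃ e ∈ ([] : List ((ℚ × ℚ) × (ℚ × ℚ))), z ∈ segment ℝ (pt e.1) (pt e.2) := by
    rintro ⟨e, he, _⟩
    exact absurd he List.not_mem_nil
  tauto

theorem four_im {n : ℕ} {e : (ℚ × ℚ) × (ℚ × ℚ)} (he : e ∈ four c c' n) {z : ℂ}
    (hz : z ∈ segment ℝ (pt e.1) (pt e.2)) : 2 * (n : ℝ) ≤ z.im ∧ z.im ≤ 2 * n + 2 := by
  rcases (four_iff h n z).1 ⟨e, he, hz⟩ with h1 | h1 | h1 | h1
  · exact ⟨h1.2.1, by linarith [h1.2.2]⟩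
  · constructor <;> linarith [h1.1]
  · exact ⟨by linarith [h1.2.1], h1.2.2⟩
  · constructor <;> linarith [h1.1]

theorem xs_im {n : ℕ} {e : (ℚ × ℚ) × (ℚ × ℚ)} (he : e ∈ xs c c' n) {z : ℂ}
    (hz : z ∈ segment ℝ (pt e.1) (pt e.2)) : 0 ≤ z.im ∧ z.im ≤ 2 * n ∧
      (z.im = 2 * n → z.re = c → e.2 = (c, 2 * (n : ℚ))) ∧ (z.im < 1 → e.1 = (c, 0)) := by
  induction n with
  | zero => exact absurd he List.not_mem_nil
  | succ n ih =>
    have hn : (0 : ℝ) ≤ n := Nat.cast_nonneg n
    rw [xs, List.mem_append] at he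
    push_cast
    rcases he with he | he
    · obtain ⟨h1, h2, _, h4⟩ := ih he
      refine ⟨h1, by linarith, ?_, h4⟩
      intro h5
      linarith
    · obtain ⟨h1, h2⟩ := four_im h he hz
      refine ⟨by linarith, by linarith, ?_, ?_⟩
      · intro h3 h4
        have hcc : (c : ℝ) ≠ c' := by exact_mod_cast h
        unfold four at he
        simp only [List.mem_cons, List.not_mem_nil, or_false] at he
        rcases he with rfl | rfl | rfl | rfl
        · rw [mem_ver c (by linarith)] at hz
          push_cast at hz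
          linarith [hz.2.2]
        · rw [mem_hor h] at hz
          have := hz.1
          push_cast at this
          linarith
        · rw [mem_ver c' (by linarith)] at hz
          exact absurd (h4.symm.trans hz.1) hcc
        · simp only [Prod.mk.injEq, true_and]
          ring
      · intro h3
        have hn0 : (n : ℝ) < 1 := by linarith
        have hn1 : n = 0 := by
          have : n < 1 := by exact_mod_cast hn0
          omega
        subst hn1
        unfold four at he
        simp only [List.mem_cons, List.not_mem_nil, or_false] at he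
        rcases he with rfl | rfl | rfl | rfl
        · simp
        · rw [mem_hor h] at hz
          have := hz.1
          push_cast at this
          linarith
        · rw [mem_ver c' (by linarith)] at hz
          have := hz.2.1
          push_cast at this
          linarith
        · rw [mem_hor h.symm] at hz
          have := hz.1
          push_cast at this
          linarith

theorem four_good (n : ℕ) : (four c c' n).Pairwise Good := by
  have hcc : (c : ℝ) ≠ c' := by exact_mod_cast h
  unfold four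
  refine List.pairwise_cons.2 ⟨?_, List.pairwise_cons.2 ⟨?_, List.pairwise_cons.2 ⟨?_,
    List.pairwise_singleton _ _⟩⟩⟩
  · intro f hf z hz1 hz2
    rw [mem_ver c (by linarith)] at hz1
    push_cast at hz1
    simp only [List.mem_cons, List.not_mem_nil, or_false] at hf
    rcases hf with rfl | rfl | rfl
    · rw [mem_hor h] at hz2
      left
      refine ⟨?_, rfl⟩
      apply Complex.ext
      · exact hz1.1
      · exact hz2.1
    · rw [mem_ver c' (by linarith)] at hz2
      exact absurd (hz1.1.symm.trans hz2.1) hcc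
    · rw [mem_hor h.symm] at hz2
      have := hz2.1
      push_cast at this
      linarith [hz1.2.2]
  · intro f hf z hz1 hz2
    rw [mem_hor h] at hz1
    push_cast at hz1
    simp only [List.mem_cons, List.not_mem_nil, or_false] at hf
    rcases hf with rfl | rfl
    · rw [mem_ver c' (by linarith)] at hz2
      left
      refine ⟨?_, rfl⟩
      apply Complex.ext
      · exact hz2.1
      · simp only [pt]
        push_cast
        exact hz1.1
    · rw [mem_hor h.symm] at hz2
      have := hz2.1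
      push_cast at this
      linarith [hz1.1]
  · intro f hf z hz1 hz2
    rw [mem_ver c' (by linarith)] at hz1
    simp only [List.mem_cons, List.not_mem_nil, or_false] at hf
    subst hf
    rw [mem_hor h.symm] at hz2
    left
    refine ⟨?_, rfl⟩
    apply Complex.ext
    · exact hz1.1
    · exact hz2.1

/-- an edge up to the height `2 n` and an edge of the next recess -/
theorem xs_four {n : ℕ} {e f : (ℚ × ℚ) × (ℚ × ℚ)} (he : e ∈ xs c c' n) (hf : f ∈ four c c' n) :
    Good e f := by
  intro z hz1 hz2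
  obtain ⟨h1, h2, h3, _⟩ := xs_im h he hz1
  obtain ⟨h4, h5⟩ := four_im h hf hz2
  have h6 : z.im = 2 * n := le_antisymm h2 h4
  unfold four at hf
  simp only [List.mem_cons, List.not_mem_nil, or_false] at hf
  rcases hf with rfl | rfl | rfl | rfl
  · rw [mem_ver c (by linarith)] at hz2
    have h7 := h3 h6 hz2.1
    left
    refine ⟨?_, h7⟩
    rw [h7]
    apply Complex.ext
    · exact hz2.1
    · simp only [pt]
      push_cast
      exact h6
  · rw [mem_hor h] at hz2
    have := hz2.1
    push_cast at this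
    linarith
  · rw [mem_ver c' (by linarith)] at hz2
    have := hz2.2.1
    push_cast at this
    linarith
  · rw [mem_hor h.symm] at hz2
    have := hz2.1
    push_cast at this
    linarith

theorem xs_good (n : ℕ) : (xs c c' n).Pairwise Good := by
  induction n with
  | zero => exact List.Pairwise.nil
  | succ n ih =>
    rw [xs, List.pairwise_append]
    exact ⟨ih, four_good h n, fun e he f hf => xs_four h he hf⟩

theorem wp_good (n : ℕ) : (wp c c' n).Pairwise Good := by
  unfold wp
  rw [List.pairwise_append]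
  refine ⟨xs_good h n, List.pairwise_singleton _ _, ?_⟩
  intro e he f hf
  apply xs_four h he
  simp only [List.mem_cons, List.not_mem_nil, or_false] at hf
  subst hf
  exact List.mem_cons_self

theorem four_ne {n : ℕ} {e : (ℚ × ℚ) × (ℚ × ℚ)} (he : e ∈ four c c' n) : e.1 ≠ e.2 := by
  unfold four at he
  simp only [List.mem_cons, List.not_mem_nil, or_false] at he
  rcases he with rfl | rfl | rfl | rfl
  · simp
  · simp [h]
  · simp
  · simp [h.symm]

theorem xs_ne {n : ℕ} {e : (ℚ × ℚ) × (ℚ × ℚ)} (he : e ∈ xs c c' n) : e.1 ≠ e.2 := by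
  induction n with
  | zero => exact absurd he List.not_mem_nil
  | succ n ih =>
    rw [xs, List.mem_append] at he
    rcases he with he | he
    · exact ih he
    · exact four_ne h he

theorem wp_ne {n : ℕ} {e : (ℚ × ℚ) × (ℚ × ℚ)} (he : e ∈ wp c c' n) : e.1 ≠ e.2 := by
  unfold wp at he
  rw [List.mem_append] at he
  rcases he with he | he
  · exact xs_ne h he
  · simp only [List.mem_cons, List.not_mem_nil, or_false] at he
    subst he
    simp

/-- the points of the edges of a wall -/
theorem xs_iff (n : ℕ) (z : ℂ) : (∃ e ∈ xs c c' n, z ∈ segment ℝ (pt e.1) (pt e.2)) ↔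
    ∃ i : ℕ, i < n ∧ ((z.re = c ∧ 2 * (i : ℝ) ≤ z.im ∧ z.im ≤ 2 * i + 1) ∨
    (z.im = 2 * i + 1 ∧ z.re ∈ Set.uIcc (c : ℝ) c') ∨
    (z.re = c' ∧ 2 * (i : ℝ) + 1 ≤ z.im ∧ z.im ≤ 2 * i + 2) ∨
    (z.im = 2 * i + 2 ∧ z.re ∈ Set.uIcc (c : ℝ) c')) := by
  induction n with
  | zero =>
    constructor
    · rintro ⟨e, he, _⟩
      exact absurd he List.not_mem_nil
    · rintro ⟨i, hi, _⟩
      omega
  | succ n ih =>
    rw [xs, exists_append, ih, four_iff h]
    constructor
    · rintro (⟨i, hi, hz⟩ | hz)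
      · exact ⟨i, by omega, hz⟩
      · exact ⟨n, by omega, hz⟩
    · rintro ⟨i, hi, hz⟩
      rcases Nat.lt_succ_iff_lt_or_eq.1 hi with h1 | h1
      · exact Or.inl ⟨i, h1, hz⟩
      · subst h1
        exact Or.inr hz

theorem wp_iff (n : ℕ) (z : ℂ) : (∃ e ∈ wp c c' n, z ∈ segment ℝ (pt e.1) (pt e.2)) ↔
    (z.re = c ∧ ∃ i : ℕ, i ≤ n ∧ 2 * (i : ℝ) ≤ z.im ∧ z.im ≤ 2 * i + 1) ∨
    (∃ i : ℕ, i < n ∧ ((z.im = 2 * i + 1 ∧ z.re ∈ Set.uIcc (c : ℝ) c') ∨
    (z.re = c' ∧ 2 * (i : ℝ) + 1 ≤ z.im ∧ z.im ≤ 2 * i + 2) ∨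
    (z.im = 2 * i + 2 ∧ z.re ∈ Set.uIcc (c : ℝ) c'))) := by
  unfold wp
  rw [exists_append, xs_iff h, exists_cons, mem_ver c (by linarith)]
  have h0 : ¬ ∃ e ∈ ([] : List ((ℚ × ℚ) × (ℚ × ℚ))), z ∈ segment ℝ (pt e.1) (pt e.2) := by
    rintro ⟨e, he, _⟩
    exact absurd he List.not_mem_nil
  push_cast
  constructor
  · rintro (⟨i, hi, hz | hz⟩ | hz | hz)
    · exact Or.inl ⟨hz.1, i, hi.le, hz.2⟩
    · exact Or.inr ⟨i, hi, hz⟩
    · exact Or.inl ⟨hz.1, n, le_rfl, hz.2⟩
    · exact absurd hz h0
  · rintro (⟨h1, i, hi, hz⟩ | ⟨i, hi, hz⟩)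
    · rcases Nat.lt_or_eq_of_le hi with h2 | h2
      · exact Or.inl ⟨i, h2, Or.inl ⟨h1, hz⟩⟩
      · subst h2
        exact Or.inr (Or.inl ⟨h1, hz⟩)
    · exact Or.inl ⟨i, hi, Or.inr hz⟩

theorem wp_im {n : ℕ} {e : (ℚ × ℚ) × (ℚ × ℚ)} (he : e ∈ wp c c' n) {z : ℂ}
    (hz : z ∈ segment ℝ (pt e.1) (pt e.2)) :
      (2 * n + 1 / 2 < z.im → e.2 = (c, 2 * (n : ℚ) + 1)) ∧ (z.im < 1 → e.1 = (c, 0)) := by
  unfold wp at he
  rw [List.mem_append] at he
  rcases he with he | he
  · obtain ⟨h1, h2, _, h4⟩ := xs_im h he hz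
    exact ⟨fun h5 => by linarith only [h2, h5], h4⟩
  · simp only [List.mem_cons, List.not_mem_nil, or_false] at he
    subst he
    refine ⟨fun _ => rfl, ?_⟩
    intro h3
    rw [mem_ver c (by linarith)] at hz
    have h4 := hz.2.1
    push_cast at h4
    have hn0 : (n : ℝ) < 1 := by linarith
    have hn1 : n = 0 := by
      have : n < 1 := by exact_mod_cast hn0
      omega
    subst hn1
    simp

/-! ### The crossings -/

/-- a horizontal edge -/
theorem crosses_hor (y : ℚ) (z : ℂ) : Crosses z (pt (c, y)) (pt (c', y)) ↔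
    (((c : ℝ) ≤ z.re ∧ z.re < c') ∨ ((c' : ℝ) ≤ z.re ∧ z.re < c)) ∧ z.im < y := by
  unfold Crosses
  simp only [pt, sub_self, mul_zero, add_zero]

theorem cnt_four_in (n : ℕ) {z : ℂ}
    (hz : ((c : ℝ) ≤ z.re ∧ z.re < c') ∨ ((c' : ℝ) ≤ z.re ∧ z.re < c)) : cnt z (four c c' n) =
      (if z.im < 2 * n + 1 then 1 else 0) + (if z.im < 2 * n + 2 then 1 else 0) := by
  classical
  unfold four
  rw [cnt_vert (p := (c, 2 * (n : ℚ))) (q := (c, 2 * (n : ℚ) + 1)) rfl, cnt_cons,
    cnt_vert (p := (c', 2 * (n : ℚ) + 1)) (q := (c', 2 * (n : ℚ) + 2)) rfl, cnt_cons, cnt_nil,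
    add_zero]
  congr 1
  · apply if_congr _ rfl rfl
    rw [crosses_hor h]
    push_cast
    tauto
  · apply if_congr _ rfl rfl
    rw [crosses_hor h.symm]
    push_cast
    tauto

theorem cnt_four_out (n : ℕ) {z : ℂ}
    (hz : ¬ (((c : ℝ) ≤ z.re ∧ z.re < c') ∨ ((c' : ℝ) ≤ z.re ∧ z.re < c))) :
    cnt z (four c c' n) = 0 := by
  classical
  unfold four
  rw [cnt_vert (p := (c, 2 * (n : ℚ))) (q := (c, 2 * (n : ℚ) + 1)) rfl, cnt_cons,
    cnt_vert (p := (c', 2 * (n : ℚ) + 1)) (q := (c', 2 * (n : ℚ) + 2)) rfl, cnt_cons, cnt_nil,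
    add_zero, if_neg, if_neg]
  · rw [crosses_hor h.symm]
    tauto
  · rw [crosses_hor h]
    tauto

theorem cnt_xs_out (n : ℕ) {z : ℂ}
    (hz : ¬ (((c : ℝ) ≤ z.re ∧ z.re < c') ∨ ((c' : ℝ) ≤ z.re ∧ z.re < c))) :
    cnt z (xs c c' n) = 0 := by
  induction n with
  | zero => rfl
  | succ n ih => rw [xs, cnt_append, ih, cnt_four_out h n hz]

theorem odd_xs (n : ℕ) {z : ℂ}
    (hz : ((c : ℝ) ≤ z.re ∧ z.re < c') ∨ ((c' : ℝ) ≤ z.re ∧ z.re < c)) :
    Odd (cnt z (xs c c' n)) ↔ ∃ i : ℕ, i < n ∧ 2 * (i : ℝ) + 1 ≤ z.im ∧ z.im < 2 * i + 2 := by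
  induction n with
  | zero =>
    constructor
    · intro h1
      rw [xs, cnt_nil] at h1
      exact absurd h1 Nat.not_odd_zero
    · rintro ⟨i, hi, _⟩
      omega
  | succ n ih =>
    rw [xs, cnt_append, cnt_four_in h n hz]
    rcases lt_or_ge z.im (2 * n + 1) with h1 | h1
    · rw [if_pos h1, if_pos (by linarith)]
      have : Odd (cnt z (xs c c' n) + (1 + 1)) ↔ Odd (cnt z (xs c c' n)) := by
        rw [Nat.odd_add]
        simp
      rw [this, ih]
      constructor
      · rintro ⟨i, hi, h2⟩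
        exact ⟨i, by omega, h2⟩
      · rintro ⟨i, hi, h2⟩
        rcases Nat.lt_succ_iff_lt_or_eq.1 hi with h3 | h3
        · exact ⟨i, h3, h2⟩
        · subst h3
          linarith only [h1, h2.1]
    · rw [if_neg (by linarith)]
      have h0 : ¬ ∃ i : ℕ, i < n ∧ 2 * (i : ℝ) + 1 ≤ z.im ∧ z.im < 2 * i + 2 := by
        rintro ⟨i, hi, _, h2⟩
        have : (i : ℝ) + 1 ≤ n := by exact_mod_cast hi
        linarith only [h1, h2, this]
      rw [← ih] at h0
      rcases lt_or_ge z.im (2 * n + 2) with h2 | h2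
      · rw [if_pos h2]
        constructor
        · intro _
          exact ⟨n, by omega, h1, h2⟩
        · intro _
          rw [zero_add, Nat.odd_add_one]
          exact h0
      · rw [if_neg (by linarith)]
        constructor
        · intro h3
          exact absurd h3 h0
        · rintro ⟨i, hi, _, h4⟩
          have : (i : ℝ) + 1 ≤ n + 1 := by exact_mod_cast hi
          linarith

theorem cnt_wp (n : ℕ) (z : ℂ) : cnt z (wp c c' n) = cnt z (xs c c' n) := by
  unfold wp
  rw [cnt_append, cnt_vert (p := (c, 2 * (n : ℚ))) (q := (c, 2 * (n : ℚ) + 1)) rfl, cnt_nil,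
    add_zero]

end wall

theorem pairwise_reverse_good {E : List ((ℚ × ℚ) × (ℚ × ℚ))} (h : E.Pairwise Good) :
    ((E.map Prod.swap).reverse).Pairwise Good := by
  rw [List.pairwise_reverse, List.pairwise_map]
  exact h.imp fun h => h.symm.swap

theorem exists_swap {E : List ((ℚ × ℚ) × (ℚ × ℚ))} {z : ℂ} :
    (∃ e ∈ (E.map Prod.swap).reverse, z ∈ segment ℝ (pt e.1) (pt e.2)) ↔
      ∃ e ∈ E, z ∈ segment ℝ (pt e.1) (pt e.2) := by
  constructor
  · rintro ⟨e, he, hz⟩
    rw [List.mem_reverse] at he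
    obtain ⟨e', h1, rfl⟩ := List.mem_map.1 he
    refine ⟨e', h1, ?_⟩
    rw [segment_symm]
    exact hz
  · rintro ⟨e, he, hz⟩
    refine ⟨e.swap, ?_, ?_⟩
    · rw [List.mem_reverse]
      exact List.mem_map_of_mem he
    · rw [segment_symm]
      exact hz

theorem cnt_swap (z : ℂ) (E : List ((ℚ × ℚ) × (ℚ × ℚ))) :
    cnt z (E.map Prod.swap).reverse = cnt z E := by
  unfold cnt
  rw [List.countP_reverse, List.countP_map]
  apply List.countP_congr
  intro e _
  simp only [Function.comp_apply, decide_eq_true_eq, Prod.fst_swap, Prod.snd_swap]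
  exact crosses_symm _ _ _

theorem recess_iff (n : ℕ) (y : ℝ) :
    (∃ r : ℕ, r < 2 * n + 1 ∧ r % 2 = 1 ∧ (r : ℝ) ≤ y ∧ y ≤ r + 1) ↔
      ∃ i : ℕ, i < n ∧ 2 * (i : ℝ) + 1 ≤ y ∧ y ≤ 2 * i + 2 := by
  constructor
  · rintro ⟨r, h1, h2, h3, h4⟩
    obtain ⟨i, rfl⟩ : ∃ i, r = 2 * i + 1 := ⟨r / 2, by omega⟩
    refine ⟨i, by omega, ?_, ?_⟩
    · push_cast at h3
      exact h3
    · push_cast at h4
      linarith only [h4]
  · rintro ⟨i, h1, h2, h3⟩
    refine ⟨2 * i + 1, by omega, by omega, ?_, ?_⟩
    · push_cast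
      exact h2
    · push_cast
      linarith only [h3]

theorem p5 : P5Stmt := by
  intro F C M δ n hF hC hM hδ hF1 hF2 hC1 hC2 hFC
  have hMR : (0 : ℝ) < M := by exact_mod_cast hM
  have hδR : (0 : ℝ) < δ := by exact_mod_cast hδ
  have hR : M ≠ M + δ := by
    intro h
    linarith
  have hL : (0 : ℚ) ≠ -δ := by
    intro h
    linarith
  change IsSimple (F ++ wall M (M + δ) n ++ C.reverse ++ (wall 0 (-δ) n).reverse) ∧
    region (F ++ wall M (M + δ) n ++ C.reverse ++ (wall 0 (-δ) n).reverse) = _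
  -- the edges
  have hE : edges (F ++ wall M (M + δ) n ++ C.reverse ++ (wall 0 (-δ) n).reverse) =
      path F ++ (wp M (M + δ) n ++ (path C.reverse ++ ((wp 0 (-δ) n).map Prod.swap).reverse)) := by
    obtain ⟨F', rfl⟩ := eq_cons_of_head hF1
    obtain ⟨F0, hF0⟩ := List.getLast?_eq_some_iff.1 hF2
    obtain ⟨C', hC'⟩ := eq_cons_of_head hC1
    obtain ⟨C0, hC0⟩ := List.getLast?_eq_some_iff.1 hC2
    have e0 : ((0, 0) :: F') ++ wall M (M + δ) n ++ C.reverse ++ (wall 0 (-δ) n).reverse =
        ((0 : ℚ), (0 : ℚ)) :: (F' ++ wall M (M + δ) n ++ C.reverse ++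
          (wall 0 (-δ) n).reverse) := by simp
    rw [e0, edges_eq]
    have e1 : ((0 : ℚ), (0 : ℚ)) :: ((F' ++ wall M (M + δ) n ++ C.reverse ++
        (wall 0 (-δ) n).reverse) ++ [((0 : ℚ), (0 : ℚ))]) =
        F0 ++ (M, 0) :: (wall M (M + δ) n ++ C.reverse ++ (wall 0 (-δ) n).reverse ++
          [((0 : ℚ), (0 : ℚ))]) := by
      have : ((0 : ℚ), (0 : ℚ)) :: ((F' ++ wall M (M + δ) n ++ C.reverse ++
          (wall 0 (-δ) n).reverse) ++ [((0 : ℚ), (0 : ℚ))]) =
          (((0 : ℚ), (0 : ℚ)) :: F') ++ (wall M (M + δ) n ++ C.reverse ++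
          (wall 0 (-δ) n).reverse ++ [((0 : ℚ), (0 : ℚ))]) := by simp
      rw [this, hF0]
      simp
    rw [e1, path_append, ← hF0]
    congr 1
    have e2 : (M, (0 : ℚ)) :: (wall M (M + δ) n ++ C.reverse ++ (wall 0 (-δ) n).reverse ++
        [((0 : ℚ), (0 : ℚ))]) = ((M, (0 : ℚ)) :: wall M (M + δ) n) ++
        (M, 2 * (n : ℚ) + 1) :: (C0.reverse ++ (wall 0 (-δ) n).reverse ++
        [((0 : ℚ), (0 : ℚ))]) := by
      rw [hC0]
      simp
    rw [e2, path_append, List.cons_append, path_wall]
    congr 1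
    have e3 : (M, 2 * (n : ℚ) + 1) :: (C0.reverse ++ (wall 0 (-δ) n).reverse ++
        [((0 : ℚ), (0 : ℚ))]) = C.reverse ++ (wall 0 (-δ) n).reverse ++
        [((0 : ℚ), (0 : ℚ))] := by
      rw [hC0]
      simp
    rw [e3, hC']
    have e4 : ((0, 2 * (n : ℚ) + 1) :: C').reverse ++ (wall 0 (-δ) n).reverse ++
        [((0 : ℚ), (0 : ℚ))] = C'.reverse ++ (0, 2 * (n : ℚ) + 1) :: ((wall 0 (-δ) n).reverse ++
        [((0 : ℚ), (0 : ℚ))]) := by simp
    rw [e4, path_append]
    congr 1
    · simp
    · have e5 : (0, 2 * (n : ℚ) + 1) :: ((wall 0 (-δ) n).reverse ++ [((0 : ℚ), (0 : ℚ))]) =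
          (((0 : ℚ), (0 : ℚ)) :: (wall 0 (-δ) n ++ [(0, 2 * (n : ℚ) + 1)])).reverse := by simp
      rw [e5, path_reverse, path_wall]
      rfl
  have memF := mem_ends hF hF1 hF2 hM
  have memC := mem_ends hC hC1 hC2 hM
  simp only [Rat.cast_zero] at memF memC
  have vF0 := val_head hF hF1
  have vF1 := val_last hF hF1 hF2
  have vC0 := val_head hC hC1
  have vC1 := val_last hC hC1 hC2
  simp only [Rat.cast_zero] at vF0 vF1 vC0 vC1
  push_cast at vC0 vC1
  -- abscissas of the walls
  have xR : ∀ {e : (ℚ × ℚ) × (ℚ × ℚ)}, e ∈ wp M (M + δ) n → ∀ {z : ℂ},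
      z ∈ segment ℝ (pt e.1) (pt e.2) → (M : ℝ) ≤ z.re ∧ z.re ≤ M + δ := by
    intro e he z hz
    have := (wp_iff hR n z).1 ⟨e, he, hz⟩
    have hle : (M : ℝ) ≤ ((M + δ : ℚ) : ℝ) := by push_cast; linarith only [hδR]
    rw [Set.uIcc_of_le hle] at this
    simp only [Set.mem_Icc] at this
    push_cast at this
    rcases this with ⟨h1, _⟩ | ⟨i, _, ⟨_, h1⟩ | ⟨h1, _⟩ | ⟨_, h1⟩⟩
    · constructor <;> linarith
    · exact h1
    · constructor <;> linarith
    · exact h1
  have xL : ∀ {e : (ℚ × ℚ) × (ℚ × ℚ)}, e ∈ wp 0 (-δ) n → ∀ {z : ℂ},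
      z ∈ segment ℝ (pt e.1) (pt e.2) → -(δ : ℝ) ≤ z.re ∧ z.re ≤ 0 := by
    intro e he z hz
    have := (wp_iff hL n z).1 ⟨e, he, hz⟩
    have hle : ((-δ : ℚ) : ℝ) ≤ ((0 : ℚ) : ℝ) := by push_cast; linarith
    rw [Set.uIcc_of_ge hle] at this
    simp only [Set.mem_Icc] at this
    push_cast at this
    rcases this with ⟨h1, _⟩ | ⟨i, _, ⟨_, h1⟩ | ⟨h1, _⟩ | ⟨_, h1⟩⟩
    · constructor <;> linarith
    · exact h1
    · constructor <;> linarith
    · exact h1
  have memS : ∀ {e : (ℚ × ℚ) × (ℚ × ℚ)}, e ∈ ((wp 0 (-δ) n).map Prod.swap).reverse →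
      e.swap ∈ wp 0 (-δ) n := by
    intro e he
    rw [List.mem_reverse] at he
    obtain ⟨e', h1, rfl⟩ := List.mem_map.1 he
    simpa using h1
  refine ⟨?_, ?_⟩
  · apply simple_of
    · have h1 : 2 ≤ F.length := by
        rcases F with _ | ⟨p, _ | ⟨r, F⟩⟩
        · simp at hF1
        · simp only [List.head?_cons, List.getLast?_singleton] at hF1 hF2
          rw [hF1] at hF2
          simp only [Option.some.injEq, Prod.mk.injEq] at hF2
          exact absurd hF2.1 hM.ne
        · simp
      have h2 : 1 ≤ C.length := by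
        rcases C with _ | ⟨p, C⟩
        · simp at hC1
        · simp
      simp only [List.length_append, List.length_reverse]
      omega
    · rw [hE]
      intro e he
      simp only [List.mem_append] at he
      rcases he with he | he | he | he
      · have := (path_ends hF hF1 hF2 he).1
        intro h
        rw [h] at this
        exact lt_irrefl _ this
      · exact wp_ne hR he
      · have := (path_ends hC hC1 hC2 (mem_path_reverse.1 he)).1
        simp only [Prod.fst_swap, Prod.snd_swap] at this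
        intro h
        rw [h] at this
        exact lt_irrefl _ this
      · have := wp_ne hL (memS he)
        simp only [Prod.fst_swap, Prod.snd_swap] at this
        exact this.symm
    · rw [hE, List.pairwise_append, List.pairwise_append, List.pairwise_append]
      refine ⟨pairwise_chain hF, ⟨wp_good hR n, ⟨pairwise_path_reverse (pairwise_chain hC),
        pairwise_reverse_good (wp_good hL n), ?_⟩, ?_⟩, ?_⟩
      · -- ceiling and left wall
        intro e he f hf z hz1 hz2
        have hf' := memS hf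
        rw [segment_symm] at hz1 hz2
        have h1 := (xL hf' hz2).2
        obtain ⟨h2, h3⟩ := path_left hC hC1 hC2 (mem_path_reverse.1 he) hz1 (by simpa using h1)
        simp only [Prod.fst_swap] at h2 h3
        have h4 : 2 * (n : ℝ) + 1 / 2 < z.im := by
          rw [h2, h3]
          simp only [pt]
          push_cast
          linarith
        have h5 := (wp_im hL hf' hz2).1 h4
        left
        refine ⟨h2, ?_⟩
        rw [h3]
        exact h5.symm
      · -- right wall and the rest
        intro e he f hf z hz1 hz2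
        rw [List.mem_append] at hf
        have h1 := (xR he hz1).1
        rcases hf with hf | hf
        · rw [segment_symm] at hz2
          obtain ⟨h2, h3⟩ := path_right hC hC1 hC2 (mem_path_reverse.1 hf) hz2 (by simpa using h1)
          simp only [Prod.snd_swap] at h2 h3
          have h4 : 2 * (n : ℝ) + 1 / 2 < z.im := by
            rw [h2, h3]
            simp only [pt]
            push_cast
            linarith
          have h5 := (wp_im hR he hz1).1 h4
          left
          refine ⟨?_, ?_⟩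
          · rw [h2, h3, h5]
          · rw [h5, h3]
        · exfalso
          have hf' := memS hf
          rw [segment_symm] at hz2
          have h2 := (xL hf' hz2).2
          linarith
      · -- floor and the rest
        intro e he f hf z hz1 hz2
        simp only [List.mem_append] at hf
        rcases hf with hf | hf | hf
        · have h1 := (xR hf hz2).1
          obtain ⟨h2, h3⟩ := path_right hF hF1 hF2 he hz1 (by simpa using h1)
          have h4 : z.im < 1 := by
            rw [h2, h3]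
            simp [pt]
          have h5 := (wp_im hR hf hz2).2 h4
          left
          refine ⟨h2, ?_⟩
          rw [h3, h5]
        · exfalso
          have h1 := (memF z).1 ⟨e, he, hz1⟩
          have h2 := (memC z).1 (exists_reverse.1 ⟨f, hf, hz2⟩)
          obtain ⟨h3, h4⟩ := hFC z.re h1.1 h1.2.1
          rw [← h1.2.2] at h3
          rw [← h2.2.2] at h4
          have : (0 : ℝ) ≤ n := Nat.cast_nonneg n
          linarith
        · have hf' := memS hf
          rw [segment_symm] at hz2
          have h1 := (xL hf' hz2).2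
          obtain ⟨h2, h3⟩ := path_left hF hF1 hF2 he hz1 (by simpa using h1)
          have h4 : z.im < 1 := by
            rw [h2, h3]
            simp [pt]
          have h5 := (wp_im hL hf' hz2).2 h4
          right
          refine ⟨h2, ?_⟩
          rw [h3]
          exact h5.symm
  · ext z
    rw [mem_region, hE, exists_append, exists_append, exists_append, exists_reverse, exists_swap,
      cnt_append, cnt_append, cnt_append, cnt_path_reverse, cnt_swap, cnt_wp hR, cnt_wp hL,
      memF, memC, cnt_ends hF hF1 hF2, cnt_ends hC hC1 hC2]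
    simp only [Set.mem_union, Set.mem_setOf_eq]
    rw [recess_iff]
    simp only [Rat.cast_zero]
    have hn : (0 : ℝ) ≤ n := Nat.cast_nonneg n
    have hleR : (M : ℝ) ≤ ((M + δ : ℚ) : ℝ) := by push_cast; linarith
    have hleL : ((-δ : ℚ) : ℝ) ≤ ((0 : ℚ) : ℝ) := by push_cast; linarith
    have wR := wp_iff hR n z
    have wL := wp_iff hL n z
    rw [Set.uIcc_of_le hleR] at wR
    rw [Set.uIcc_of_ge hleL] at wL
    simp only [Set.mem_Icc] at wR wL
    push_cast at wR wL
    rw [wR, wL]
    -- the counts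
    have outR : ¬ ((M : ℝ) ≤ z.re ∧ z.re < M + δ) → cnt z (xs M (M + δ) n) = 0 := by
      intro h
      apply cnt_xs_out hR
      push_cast
      rintro (h1 | h1)
      · exact h h1
      · linarith [h1.1, h1.2]
    have outL : ¬ (-(δ : ℝ) ≤ z.re ∧ z.re < 0) → cnt z (xs 0 (-δ) n) = 0 := by
      intro h
      apply cnt_xs_out hL
      push_cast
      rintro (h1 | h1)
      · linarith [h1.1, h1.2]
      · exact h h1
    have inR : ((M : ℝ) ≤ z.re ∧ z.re < M + δ) → (Odd (cnt z (xs M (M + δ) n)) ↔
        ∃ i : ℕ, i < n ∧ 2 * (i : ℝ) + 1 ≤ z.im ∧ z.im < 2 * i + 2) := by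
      intro h
      apply odd_xs hR
      push_cast
      exact Or.inl h
    have inL : (-(δ : ℝ) ≤ z.re ∧ z.re < 0) → (Odd (cnt z (xs 0 (-δ) n)) ↔
        ∃ i : ℕ, i < n ∧ 2 * (i : ℝ) + 1 ≤ z.im ∧ z.im < 2 * i + 2) := by
      intro h
      apply odd_xs hL
      push_cast
      exact Or.inr h
    -- the main part is contained in the region
    have main : 0 ≤ z.re → z.re < M → chainVal F z.re ≤ z.im → z.im ≤ chainVal C z.re →
        (0 ≤ z.re ∧ z.re ≤ M ∧ z.im = chainVal C z.re) ∨
        Odd ((if 0 ≤ z.re ∧ z.re < M ∧ z.im < chainVal F z.re then 1 else 0) +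
          (cnt z (xs M (M + δ) n) +
            ((if 0 ≤ z.re ∧ z.re < M ∧ z.im < chainVal C z.re then 1 else 0) +
              cnt z (xs 0 (-δ) n)))) := by
      intro h1 h2 h3 h4
      rcases eq_or_lt_of_le h4 with h5 | h5
      · exact Or.inl ⟨h1, h2.le, h5⟩
      · right
        rw [outR (fun h => by linarith [h.1]), outL (fun h => by linarith [h.2]), if_neg, if_pos]
        · exact ⟨0, rfl⟩
        · exact ⟨h1, h2, h5⟩
        · rintro ⟨_, _, h6⟩
          linarith
    constructor
    · rintro ((h | h | h | h) | h)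
      · obtain ⟨h1, h2, h3⟩ := h
        obtain ⟨h4, h5⟩ := hFC z.re h1 h2
        exact Or.inl ⟨h1, h2, h3.ge, by linarith⟩
      · rcases h with ⟨h1, i, hi, h2, h3⟩ | ⟨i, hi, h⟩
        · left
          rw [h1, vF1, vC1]
          have : (i : ℝ) ≤ n := by exact_mod_cast hi
          have hi0 : (0 : ℝ) ≤ i := Nat.cast_nonneg i
          exact ⟨hMR.le, le_rfl, by linarith, by linarith⟩
        · right
          rcases h with ⟨h1, h2⟩ | ⟨h1, h2⟩ | ⟨h1, h2⟩
          · exact ⟨Or.inr h2, i, hi, by linarith, by linarith⟩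
          · exact ⟨Or.inr ⟨by linarith, by linarith⟩, i, hi, h2⟩
          · exact ⟨Or.inr h2, i, hi, by linarith, by linarith⟩
      · obtain ⟨h1, h2, h3⟩ := h
        obtain ⟨h4, h5⟩ := hFC z.re h1 h2
        exact Or.inl ⟨h1, h2, by linarith, h3.le⟩
      · rcases h with ⟨h1, i, hi, h2, h3⟩ | ⟨i, hi, h⟩
        · left
          rw [h1, vF0, vC0]
          have : (i : ℝ) ≤ n := by exact_mod_cast hi
          have hi0 : (0 : ℝ) ≤ i := Nat.cast_nonneg i
          exact ⟨le_rfl, hMR.le, by linarith, by linarith⟩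
        · right
          rcases h with ⟨h1, h2⟩ | ⟨h1, h2⟩ | ⟨h1, h2⟩
          · exact ⟨Or.inl h2, i, hi, by linarith, by linarith⟩
          · exact ⟨Or.inl ⟨by linarith, by linarith⟩, i, hi, h2⟩
          · exact ⟨Or.inl h2, i, hi, by linarith, by linarith⟩
      · rcases lt_or_ge z.re 0 with g1 | g1
        · rw [if_neg (fun h => by linarith [h.1]), if_neg (fun h => by linarith [h.1]),
            outR (fun h => by linarith [h.1]), zero_add, zero_add, zero_add] at h
          by_cases g2 : -(δ : ℝ) ≤ z.re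
          · obtain ⟨i, hi, h1, h2⟩ := (inL ⟨g2, g1⟩).1 h
            exact Or.inr ⟨Or.inl ⟨g2, g1.le⟩, i, hi, h1, h2.le⟩
          · rw [outL (fun h => g2 h.1)] at h
            exact absurd h Nat.not_odd_zero
        · rcases lt_or_ge z.re M with g2 | g2
          · rw [outR (fun h => by linarith [h.1]), outL (fun h => by linarith [h.2]), zero_add,
              add_zero] at h
            obtain ⟨h4, h5⟩ := hFC z.re g1 g2.le
            left
            split_ifs at h with c1 c2 c2
            · exact absurd h (by decide)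
            · exfalso
              apply c2
              exact ⟨c1.1, c1.2.1, by linarith [c1.2.2]⟩
            · refine ⟨g1, g2.le, ?_, c2.2.2.le⟩
              by_contra h6
              exact c1 ⟨g1, g2, not_le.1 h6⟩
            · exact absurd h (by decide)
          · rw [if_neg (fun h => by linarith [h.2.1]), if_neg (fun h => by linarith [h.2.1]),
              outL (fun h => by linarith [h.2]), zero_add, add_zero, add_zero] at h
            by_cases g3 : z.re < M + δ
            · obtain ⟨i, hi, h1, h2⟩ := (inR ⟨g2, g3⟩).1 h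
              exact Or.inr ⟨Or.inr ⟨g2, g3.le⟩, i, hi, h1, h2.le⟩
            · rw [outR (fun h => g3 h.2)] at h
              exact absurd h Nat.not_odd_zero
    · rintro (⟨h1, h2, h3, h4⟩ | ⟨h | h, i, hi, h3, h4⟩)
      · rcases eq_or_lt_of_le h2 with h5 | h5
        · rw [h5, vF1] at h3
          rw [h5, vC1] at h4
          push_cast at h3
          -- the height
          obtain ⟨k, hk⟩ : ∃ k : ℕ, k = ⌊z.im⌋₊ := ⟨_, rfl⟩
          have k1 : (k : ℝ) ≤ z.im := by
            rw [hk]
            exact Nat.floor_le h3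
          have k2 : z.im < k + 1 := by
            rw [hk]
            exact Nat.lt_floor_add_one _
          rcases Nat.even_or_odd' k with ⟨i, hi | hi⟩
          · left
            right
            left
            left
            refine ⟨h5, i, ?_, ?_, ?_⟩
            · have : (2 * i : ℝ) ≤ 2 * n + 1 := by
                rw [hi] at k1
                push_cast at k1
                linarith only [h4, k1]
              have : 2 * i ≤ 2 * n + 1 := by exact_mod_cast this
              omega
            · rw [hi] at k1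
              push_cast at k1
              exact k1
            · rw [hi] at k2
              push_cast at k2
              exact k2.le
          · rw [hi] at k1 k2
            push_cast at k1 k2
            have : (2 * i + 1 : ℝ) ≤ 2 * n + 1 := by linarith only [h4, k1]
            have h6 : 2 * i + 1 ≤ 2 * n + 1 := by exact_mod_cast this
            rcases Nat.lt_or_eq_of_le h6 with h7 | h7
            · right
              rw [if_neg (fun h => by linarith only [h5, h.2.1]), if_neg (fun h => by linarith only [h5, h.2.1]),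
                outL (fun h => by linarith only [hMR, h5, h.2]), zero_add, add_zero, add_zero,
                inR ⟨h5.ge, by linarith⟩]
              exact ⟨i, by omega, k1, by linarith only [k2]⟩
            · have h8 : i = n := by omega
              subst h8
              left
              right
              left
              left
              exact ⟨h5, i, le_rfl, by linarith only [k1], h4⟩
        · rcases main h1 h5 h3 h4 with h6 | h6
          · exact Or.inl (Or.inr (Or.inr (Or.inl h6)))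
          · exact Or.inr h6
      · have hin : (i : ℝ) + 1 ≤ n := by exact_mod_cast hi
        have hi0 : (0 : ℝ) ≤ i := Nat.cast_nonneg i
        rcases eq_or_lt_of_le h.2 with h5 | h5
        · have m1 := main h5.ge (by linarith) (by rw [h5, vF0]; push_cast; linarith)
            (by rw [h5, vC0]; linarith)
          rcases m1 with h6 | h6
          · exact Or.inl (Or.inr (Or.inr (Or.inl h6)))
          · exact Or.inr h6
        · rcases eq_or_lt_of_le h4 with h6 | h6
          · left
            right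
            right
            right
            right
            exact ⟨i, hi, Or.inr (Or.inr ⟨h6, h⟩)⟩
          · right
            rw [if_neg (fun h => by linarith [h.1]), if_neg (fun h => by linarith [h.1]),
              outR (fun h => by linarith [h.1]), zero_add, zero_add, zero_add, inL ⟨h.1, h5⟩]
            exact ⟨i, hi, h3, h6⟩
      · rcases eq_or_lt_of_le h.2 with h5 | h5
        · left
          right
          left
          right
          exact ⟨i, hi, Or.inr (Or.inl ⟨h5, h3, h4⟩)⟩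
        · rcases eq_or_lt_of_le h4 with h6 | h6
          · left
            right
            left
            right
            exact ⟨i, hi, Or.inr (Or.inr ⟨h6, h⟩)⟩
          · right
            rw [if_neg (fun h' => by linarith [h'.2.1, h.1]),
              if_neg (fun h' => by linarith [h'.2.1, h.1]),
              outL (fun h' => by linarith [h'.2, h.1]), zero_add, add_zero, add_zero,
              inR ⟨h.1, h5⟩]
            exact ⟨i, hi, h3, h6⟩

end Pool.Agent.Helper15_Pack
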