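import Pool.Agent.Helper15_Pack.Fit

/-!
# The chains of a tile
-/

namespace Pool.Agent.Helper15_Pack

open Pool.Agent.Helper2_Pack

/-- the lower boundary, for any list of tents -/
theorem fits_lower {q g xl : ℚ} {L : List (ℚ × ℚ)} {f : ℝ → ℝ} (h0 : 0 ≤ g) (h1 : g < 8 * q ^ 3)
    (hsep : Sep g (1 - 8 * q ^ 3 + g) (xl + 8 * q ^ 3 - g) L)
    (hf : ∀ x : ℝ, (xl : ℝ) ≤ x → x ≤ 1 → f x = max (cham q xl x) (tents g (L.map cst) x)) :
    Fits f ((xl, 8 * q ^ 3) :: (xl + 8 * q ^ 3 - g, g) :: tentPts g L ++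
      [(1 - 8 * q ^ 3 + g, g), (1, 8 * q ^ 3)]) := by
  have h2 := sep_lt hsep
  have h0' : (0 : ℝ) ≤ g := by exact_mod_cast h0
  have h1' : (g : ℝ) < 8 * (q : ℝ) ^ 3 := by exact_mod_cast h1
  have h2' : (xl : ℝ) + 8 * q ^ 3 - g < 1 - 8 * q ^ 3 + g := by exact_mod_cast h2
  have e : ((xl, 8 * q ^ 3) :: (xl + 8 * q ^ 3 - g, g) :: tentPts g L ++
      [(1 - 8 * q ^ 3 + g, g), (1, 8 * q ^ 3)]) =
      [(xl, 8 * q ^ 3)] ++ (xl + 8 * q ^ 3 - g, g) :: (tentPts g L ++
      (1 - 8 * q ^ 3 + g, g) :: [(1, 8 * q ^ 3)]) := by simp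
  rw [e, fits_append]
  refine ⟨?_, ?_⟩
  · simp only [List.cons_append, List.nil_append]
    rw [fits_cons]
    refine ⟨?_, fits_singleton _ _⟩
    apply fit_slope (-1)
    · simp only
      linarith
    · simp only
      push_cast
      ring
    · intro x h3 h4
      simp only at h3 h4 ⊢
      push_cast at h4 ⊢
      rw [hf x h3 (by linarith), tents_left hsep (by push_cast; linarith)]
      have c1 : cham q xl x = xl + 8 * q ^ 3 - x := by
        unfold cham
        rw [max_eq_right, max_eq_left]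
        · apply (min_le_right _ _).trans
          linarith
        · apply le_trans _ (le_max_left _ _)
          linarith
      rw [c1, max_eq_left (by linarith)]
      ring
  · have e2 : ((xl + 8 * q ^ 3 - g, g) :: (tentPts g L ++
      (1 - 8 * q ^ 3 + g, g) :: [(1, 8 * q ^ 3)])) = ((xl + 8 * q ^ 3 - g, g) :: tentPts g L) ++
      (1 - 8 * q ^ 3 + g, g) :: [(1, 8 * q ^ 3)] := by simp
    rw [e2, fits_append]
    refine ⟨?_, ?_⟩
    · apply fits_tents hsep
      intro x h3 h4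
      push_cast at h3 h4
      rw [hf x (by linarith) (by linarith)]
      apply max_eq_right
      apply le_trans _ (le_tents _ _ _)
      unfold cham
      apply max_le h0'
      apply max_le
      · linarith
      · apply (min_le_right _ _).trans
        linarith
    · rw [fits_cons]
      refine ⟨?_, fits_singleton _ _⟩
      apply fit_slope 1
      · simp only
        linarith
      · simp only
        push_cast
        ring
      · intro x h3 h4
        simp only at h3 h4 ⊢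
        push_cast at h3 h4 ⊢
        rw [hf x (by linarith) h4, tents_right hsep (by push_cast; linarith)]
        have c1 : cham q xl x = x - 1 + 8 * q ^ 3 := by
          unfold cham
          rw [min_eq_right (by linarith), max_eq_right, max_eq_right]
          · linarith
          · apply le_trans _ (le_max_right _ _)
            linarith
        rw [c1, max_eq_left (by linarith)]
        ring

/-- the upper boundary, for any list of tents -/
theorem fits_upper {q xl : ℚ} {L : List (ℚ × ℚ)} {f : ℝ → ℝ} (h1 : 0 < q)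
    (hsep : Sep 1 (1 - 8 * q ^ 3) (xl + 8 * q ^ 3) L)
    (hf : ∀ x : ℝ, (xl : ℝ) ≤ x → x ≤ 1 → f x = tents 1 (L.map cst) x - cham q xl x) :
    Fits f ((xl, 1 - 8 * q ^ 3) :: (xl + 8 * q ^ 3, 1) :: tentPts 1 L ++
      [(1 - 8 * q ^ 3, 1), (1, 1 - 8 * q ^ 3)]) := by
  have h2 := sep_lt hsep
  have h5 : (0 : ℚ) < 8 * q ^ 3 := by positivity
  have h1' : (0 : ℝ) < 8 * (q : ℝ) ^ 3 := by exact_mod_cast h5
  have h2' : (xl : ℝ) + 8 * q ^ 3 < 1 - 8 * q ^ 3 := by exact_mod_cast h2
  have e : ((xl, 1 - 8 * q ^ 3) :: (xl + 8 * q ^ 3, 1) :: tentPts 1 L ++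
      [(1 - 8 * q ^ 3, 1), (1, 1 - 8 * q ^ 3)]) =
      [(xl, 1 - 8 * q ^ 3)] ++ (xl + 8 * q ^ 3, 1) :: (tentPts 1 L ++
      (1 - 8 * q ^ 3, 1) :: [(1, 1 - 8 * q ^ 3)]) := by simp
  rw [e, fits_append]
  have hs1 : ∀ x : ℝ, x ≤ xl + 8 * q ^ 3 → tents 1 (L.map cst) x = 1 := by
    intro x hx
    have := tents_left hsep (x := x) (by push_cast; linarith)
    simpa using this
  have hs2 : ∀ x : ℝ, 1 - 8 * q ^ 3 ≤ x → tents 1 (L.map cst) x = 1 := by
    intro x hx
    have := tents_right hsep (x := x) (by push_cast; linarith)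
    simpa using this
  refine ⟨?_, ?_⟩
  · simp only [List.cons_append, List.nil_append]
    rw [fits_cons]
    refine ⟨?_, fits_singleton _ _⟩
    apply fit_slope 1
    · simp only
      linarith
    · simp only
      push_cast
      ring
    · intro x h3 h4
      simp only at h3 h4 ⊢
      push_cast at h4 ⊢
      rw [hf x h3 (by linarith), hs1 x h4]
      have c1 : cham q xl x = xl + 8 * q ^ 3 - x := by
        unfold cham
        rw [max_eq_right, max_eq_left]
        · apply (min_le_right _ _).trans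
          linarith
        · apply le_trans _ (le_max_left _ _)
          linarith
      rw [c1]
      ring
  · have e2 : ((xl + 8 * q ^ 3, 1) :: (tentPts 1 L ++
      (1 - 8 * q ^ 3, 1) :: [(1, 1 - 8 * q ^ 3)])) = ((xl + 8 * q ^ 3, 1) :: tentPts 1 L) ++
      (1 - 8 * q ^ 3, 1) :: [(1, 1 - 8 * q ^ 3)] := by simp
    rw [e2, fits_append]
    refine ⟨?_, ?_⟩
    · apply fits_tents hsep
      intro x h3 h4
      push_cast at h3 h4
      rw [hf x (by linarith) (by linarith)]
      have c1 : cham q xl x = 0 := by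
        unfold cham
        apply max_eq_left
        apply max_le
        · linarith
        · apply (min_le_right _ _).trans
          linarith
      rw [c1, sub_zero]
      norm_num
    · rw [fits_cons]
      refine ⟨?_, fits_singleton _ _⟩
      apply fit_slope (-1)
      · simp only
        linarith
      · simp only
        push_cast
        ring
      · intro x h3 h4
        simp only at h3 h4 ⊢
        push_cast at h3 h4 ⊢
        rw [hf x (by linarith) h4, hs2 x h3]
        have c1 : cham q xl x = x - 1 + 8 * q ^ 3 := by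
          unfold cham
          rw [min_eq_right (by linarith), max_eq_right, max_eq_right]
          · linarith
          · apply le_trans _ (le_max_right _ _)
            linarith
        rw [c1]
        ring

theorem cham_wide {q xl x : ℝ} (hq : 0 ≤ q) (h1 : 1 ≤ x) (h2 : xl ≤ 1) :
    cham q xl x = 8 * q ^ 3 := by
  have h3 : 0 ≤ q ^ 3 := by positivity
  unfold cham
  rw [min_eq_left (by linarith), max_eq_right (by linarith : xl + 8 * q ^ 3 - x ≤ 8 * q ^ 3),
    max_eq_right (by linarith)]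

/-- left end of a tile -/
def xlQ (q : ℚ) (t : Tile) : ℚ := if t.narrow then q else 0

/-- the base level of a tile -/
def gQ (q : ℚ) (t : Tile) : ℚ := if t.sgn = 0 then 0 else q ^ 3

/-- the bumps of a tile -/
def bumpsQ (q : ℚ) (t : Tile) : List (ℚ × ℚ) := t.top.marks.map fun p : ℕ => ((p : ℚ) / 32, 1 + q)

theorem cast_xl (q : ℚ) (t : Tile) : t.xl (q : ℝ) = (xlQ q t : ℝ) := by
  unfold Tile.xl xlQ
  split_ifs <;> simp

theorem cast_g (q : ℚ) (t : Tile) : t.base (q : ℝ) = (gQ q t : ℝ) := by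
  unfold Tile.base gQ
  split_ifs <;> simp

theorem cast_dents (q : ℚ) (t : Tile) : t.dents (q : ℝ) = (t.dentsQ q).map cst := by
  unfold Tile.dents Tile.dentsQ
  rw [List.map_map]
  apply List.map_congr_left
  intro p _
  simp only [Function.comp_apply]
  split_ifs <;> simp [cst]

theorem cast_bumps (q : ℚ) (t : Tile) :
    (t.top.marks.map fun p : ℕ => ((p : ℝ) / 32, 1 + (q : ℝ))) = (bumpsQ q t).map cst := by
  unfold bumpsQ
  rw [List.map_map]
  apply List.map_congr_left
  intro p _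
  simp [cst]

theorem cube_small {q : ℚ} (h0 : 0 < q) (h1 : q ≤ 1 / 2 ^ 20) :
    0 < q ^ 3 ∧ q ^ 3 ≤ q / 2 ^ 20 := by
  refine ⟨by positivity, ?_⟩
  have h2 : q ^ 2 ≤ 1 / 2 ^ 20 := by nlinarith
  have : q ^ 3 = q * q ^ 2 := by ring
  rw [this]
  nlinarith

theorem sep_lo {q : ℚ} (h0 : 0 < q) (h1 : q ≤ 1 / 2 ^ 20) (t : Tile) :
    Sep (gQ q t) (1 - 8 * q ^ 3 + gQ q t) (xlQ q t + 8 * q ^ 3 - gQ q t) (t.dentsQ q) := by
  obtain ⟨h2, h3⟩ := cube_small h0 h1
  norm_num at h1 h3
  cases t <;>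
    simp only [Sep, gQ, xlQ, Tile.dentsQ, Tile.sgn, Tile.narrow, Tile.bot, Col.marks, List.map_cons,
      List.map_nil, if_true, if_false, one_ne_zero, neg_ne_zero, ne_eq, not_false_eq_true,
      not_true_eq_false, Bool.false_eq_true, Int.cast_one, Int.cast_neg, ite_true, ite_false,
      Nat.cast_ofNat] <;>
    norm_num <;>
    (repeat' apply And.intro) <;>
    linarith

theorem sep_hi {q : ℚ} (h0 : 0 < q) (h1 : q ≤ 1 / 2 ^ 20) (t : Tile) :
    Sep 1 (1 - 8 * q ^ 3) (xlQ q t + 8 * q ^ 3) (bumpsQ q t) := by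
  obtain ⟨h2, h3⟩ := cube_small h0 h1
  norm_num at h1 h3
  cases t <;>
    simp only [Sep, xlQ, bumpsQ, Tile.narrow, Tile.top, Col.marks, List.map_cons,
      List.map_nil, if_true, if_false, Bool.false_eq_true, ite_true, ite_false,
      Nat.cast_ofNat] <;>
    norm_num <;>
    (repeat' apply And.intro) <;>
    linarith

theorem lo_eq (q : ℚ) (t : Tile) : t.loPts q =
    ((xlQ q t, 8 * q ^ 3) :: (xlQ q t + 8 * q ^ 3 - gQ q t, gQ q t) ::
      tentPts (gQ q t) (t.dentsQ q) ++ [(1 - 8 * q ^ 3 + gQ q t, gQ q t), (1, 8 * q ^ 3)]) ++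
      (if t.wide then [(1 + q, 8 * q ^ 3)] else []) := by
  simp [Tile.loPts, xlQ, gQ]

theorem hi_eq (q : ℚ) (t : Tile) : t.hiPts q =
    ((xlQ q t, 1 - 8 * q ^ 3) :: (xlQ q t + 8 * q ^ 3, 1) ::
      tentPts 1 (bumpsQ q t) ++ [(1 - 8 * q ^ 3, 1), (1, 1 - 8 * q ^ 3)]) ++
      (if t.wide then [(1 + q, 1 - 8 * q ^ 3)] else []) := by
  simp [Tile.hiPts, xlQ, bumpsQ]

theorem fits_wide {f : ℝ → ℝ} {A : List (ℚ × ℚ)} {y q : ℚ} {w : Bool} {x : ℚ × ℚ}
    (h : Fits f (A ++ [x, (1, y)])) (hq : 0 < q)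
    (hf : w = true → ∀ x : ℝ, 1 ≤ x → x ≤ 1 + q → f x = y) :
    Fits f (A ++ [x, (1, y)] ++ (if w then [(1 + q, y)] else [])) := by
  cases w with
  | false => simpa using h
  | true =>
    have e : A ++ [x, (1, y)] ++ (if true = true then [(1 + q, y)] else []) =
        (A ++ [x]) ++ (1, y) :: [(1 + q, y)] := by simp
    rw [e, fits_append]
    refine ⟨by simpa using h, ?_⟩
    rw [fits_cons]
    refine ⟨?_, fits_singleton _ _⟩
    apply fit_slope 0
    · simp only
      linarith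
    · simp
    · intro x h1 h2
      simp only at h1 h2
      push_cast at h1 h2
      rw [hf rfl x h1 h2]
      simp

theorem cast_qq (m : ℕ) : ((qq m : ℚ) : ℝ) = (1 / 2) ^ m := by
  unfold qq
  push_cast
  rfl

theorem qq_pos (m : ℕ) : 0 < qq m := by
  unfold qq
  positivity

theorem qq_le {m : ℕ} (h : 20 ≤ m) : qq m ≤ 1 / 2 ^ 20 := by
  unfold qq
  rw [one_div_pow]
  apply one_div_le_one_div_of_le (by positivity)
  exact pow_le_pow_right₀ (by norm_num) h

theorem head_lo (q : ℚ) (t : Tile) : (t.loPts q).head? = some (xlQ q t, 8 * q ^ 3) := by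
  rw [lo_eq]
  rfl

theorem head_hi (q : ℚ) (t : Tile) : (t.hiPts q).head? = some (xlQ q t, 1 - 8 * q ^ 3) := by
  rw [hi_eq]
  rfl

/-- right end of a tile -/
def xrQ (q : ℚ) (t : Tile) : ℚ := if t.wide then 1 + q else 1

theorem cast_xr (q : ℚ) (t : Tile) : t.xr (q : ℝ) = (xrQ q t : ℝ) := by
  unfold Tile.xr xrQ
  split_ifs <;> simp

theorem last_lo (q : ℚ) (t : Tile) : (t.loPts q).getLast? = some (xrQ q t, 8 * q ^ 3) := by
  rw [lo_eq]
  unfold xrQ
  split_ifs
  · rw [List.getLast?_append_of_ne_nil _ (by simp)]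
    rfl
  · rw [List.append_nil, List.getLast?_append_of_ne_nil _ (by simp)]
    rfl

theorem last_hi (q : ℚ) (t : Tile) : (t.hiPts q).getLast? = some (xrQ q t, 1 - 8 * q ^ 3) := by
  rw [hi_eq]
  unfold xrQ
  split_ifs
  · rw [List.getLast?_append_of_ne_nil _ (by simp)]
    rfl
  · rw [List.append_nil, List.getLast?_append_of_ne_nil _ (by simp)]
    rfl

theorem xl_lt_xr {q : ℚ} (h0 : 0 < q) (h1 : q ≤ 1 / 2 ^ 20) (t : Tile) : xlQ q t < xrQ q t := by
  norm_num at h1
  unfold xlQ xrQ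
  split_ifs <;> linarith

theorem xlQ_le_one {q : ℚ} (h1 : q ≤ 1 / 2 ^ 20) (t : Tile) : xlQ q t ≤ 1 := by
  norm_num at h1
  unfold xlQ
  split_ifs <;> linarith

theorem fits_lo {q : ℚ} (h0 : 0 < q) (h1 : q ≤ 1 / 2 ^ 20) (t : Tile) :
    Fits (t.sh q).lo (t.loPts q) := by
  obtain ⟨h2, h3⟩ := cube_small h0 h1
  have hsep := sep_lo h0 h1 t
  have hf : ∀ x : ℝ, (t.sh q).lo x =
      max (cham q (xlQ q t) x) (tents (gQ q t) ((t.dentsQ q).map cst) x) := by
    intro x
    rw [← cast_dents, ← cast_xl, ← cast_g]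
    rfl
  have g0 : 0 ≤ gQ q t := by
    unfold gQ
    split_ifs
    · exact le_rfl
    · exact h2.le
  have g1 : gQ q t < 8 * q ^ 3 := by
    unfold gQ
    split_ifs <;> linarith
  rw [lo_eq]
  have h4 := fits_lower g0 g1 hsep (f := (t.sh q).lo) (fun x _ _ => hf x)
  apply fits_wide h4 h0
  intro hw x hx1 hx2
  rw [hf, cham_wide (by exact_mod_cast h0.le) hx1 (by exact_mod_cast xlQ_le_one h1 t),
    tents_right hsep]
  · rw [max_eq_left]
    · push_cast
      ring
    · have : (gQ q t : ℝ) < (8 * q ^ 3 : ℚ) := by exact_mod_cast g1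
      push_cast at this
      exact this.le
  · have : (1 - 8 * q ^ 3 + gQ q t : ℚ) ≤ 1 := by linarith
    have h5 : ((1 - 8 * q ^ 3 + gQ q t : ℚ) : ℝ) ≤ 1 := by exact_mod_cast this
    linarith

theorem fits_hi {q : ℚ} (h0 : 0 < q) (h1 : q ≤ 1 / 2 ^ 20) (t : Tile) :
    Fits (t.sh q).hi (t.hiPts q) := by
  obtain ⟨h2, h3⟩ := cube_small h0 h1
  have hsep := sep_hi h0 h1 t
  have hf : ∀ x : ℝ, (t.sh q).hi x =
      tents 1 ((bumpsQ q t).map cst) x - cham q (xlQ q t) x := by
    intro x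
    rw [← cast_bumps, ← cast_xl]
    rfl
  rw [hi_eq]
  have h4 := fits_upper h0 hsep (f := (t.sh q).hi) (fun x _ _ => hf x)
  apply fits_wide h4 h0
  intro hw x hx1 hx2
  have h5 := tents_right hsep (x := x) (by
    have : (1 - 8 * q ^ 3 : ℚ) ≤ 1 := by linarith
    have h5 : ((1 - 8 * q ^ 3 : ℚ) : ℝ) ≤ 1 := by exact_mod_cast this
    linarith)
  rw [Rat.cast_one] at h5
  rw [hf, cham_wide (by exact_mod_cast h0.le) hx1 (by exact_mod_cast xlQ_le_one h1 t), h5]
  push_cast
  ring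

theorem p7 : P7Stmt := by
  intro m t hm
  have h0 := qq_pos m
  have h1 := qq_le hm
  have f1 := fits_lo h0 h1 t
  have f2 := fits_hi h0 h1 t
  refine ⟨strictX_of_fits f1, strictX_of_fits f2, ?_⟩
  intro x hx1 hx2
  rw [← cast_qq] at hx1 hx2 ⊢
  rw [cast_xl] at hx1
  rw [cast_xr] at hx2
  exact ⟨val_of_fits f1 (head_lo _ _) (last_lo _ _) (xl_lt_xr h0 h1 t) x hx1 hx2,
    val_of_fits f2 (head_hi _ _) (last_hi _ _) (xl_lt_xr h0 h1 t) x hx1 hx2⟩

end Pool.Agent.Helper15_Pack
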