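import Pool.Agent.Helper2_Pack.Stmts3

/-!
# Polygons: paths, simplicity, crossings
-/

namespace Pool.Agent.Helper15_Pack

open Pool.Agent.Helper2_Pack

/-- the pairs of consecutive points of a list -/
def path : List (ℚ × ℚ) → List ((ℚ × ℚ) × (ℚ × ℚ))
  | [] => []
  | [_] => []
  | p :: r :: L => (p, r) :: path (r :: L)

theorem path_append (A : List (ℚ × ℚ)) (x : ℚ × ℚ) (B : List (ℚ × ℚ)) :
    path (A ++ x :: B) = path (A ++ [x]) ++ path (x :: B) := by
  induction A with
  | nil => simp [path]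
  | cons a A ih =>
    cases A with
    | nil => simp [path]
    | cons a' A =>
      simp only [List.cons_append, path] at ih ⊢
      rw [ih]

theorem zip_path (p q : ℚ × ℚ) (R : List (ℚ × ℚ)) :
    (p :: R).zip (R ++ [q]) = path (p :: (R ++ [q])) := by
  induction R generalizing p with
  | nil => simp [path]
  | cons r R ih =>
    rw [List.cons_append, List.zip_cons_cons, ih]
    rfl

theorem edges_eq (p : ℚ × ℚ) (R : List (ℚ × ℚ)) : edges (p :: R) = path (p :: (R ++ [p])) := by
  unfold edges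
  rw [← zip_path]
  simp

theorem path_reverse (L : List (ℚ × ℚ)) : path L.reverse = ((path L).map Prod.swap).reverse := by
  induction L with
  | nil => rfl
  | cons p L ih =>
    cases L with
    | nil => rfl
    | cons r L =>
      rw [List.reverse_cons, List.reverse_cons, List.append_assoc, List.singleton_append,
        path_append, ← List.reverse_cons, ih]
      simp [path]

/-- the common points of two edges are common corners -/
def Good (e f : (ℚ × ℚ) × (ℚ × ℚ)) : Prop :=
  ∀ z : ℂ, z ∈ segment ℝ (pt e.1) (pt e.2) → z ∈ segment ℝ (pt f.1) (pt f.2) →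
    (z = pt e.2 ∧ e.2 = f.1) ∨ (z = pt e.1 ∧ e.1 = f.2)

theorem Good.symm {e f : (ℚ × ℚ) × (ℚ × ℚ)} (h : Good e f) : Good f e := by
  intro z h1 h2
  rcases h z h2 h1 with ⟨h3, h4⟩ | ⟨h3, h4⟩
  · exact Or.inr ⟨by rw [h3, h4], h4.symm⟩
  · exact Or.inl ⟨by rw [h3, h4], h4.symm⟩

theorem Good.swap {e f : (ℚ × ℚ) × (ℚ × ℚ)} (h : Good e f) : Good e.swap f.swap := by
  intro z h1 h2
  simp only [Prod.fst_swap, Prod.snd_swap] at h1 h2 ⊢
  rw [segment_symm] at h1 h2
  rcases h z h1 h2 with h3 | h3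
  · exact Or.inr h3
  · exact Or.inl h3

theorem pairwise_path_reverse {L : List (ℚ × ℚ)} (h : (path L).Pairwise Good) :
    (path L.reverse).Pairwise Good := by
  rw [path_reverse, List.pairwise_reverse, List.pairwise_map]
  exact h.imp fun h => h.symm.swap

theorem length_edges (P : Polygon) : (edges P).length = P.length := by
  unfold edges
  simp

theorem getElem_edges {P : Polygon} {i : ℕ} (hi : i < P.length) :
    (edges P)[i]'(by rw [length_edges]; exact hi) =
      (P[i], P[(i + 1) % P.length]'(Nat.mod_lt _ (lt_of_le_of_lt (Nat.zero_le _) hi))) := by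
  unfold edges
  rw [List.getElem_zip, List.getElem_rotate]

theorem nodup_of {P : Polygon} (h1 : ∀ e ∈ edges P, e.1 ≠ e.2) (h2 : (edges P).Pairwise Good) :
    P.Nodup := by
  unfold List.Nodup
  rw [List.pairwise_iff_getElem] at h2 ⊢
  intro i j hi hj hij heq
  have hi' : i < (edges P).length := by rwa [length_edges]
  have hj' : j < (edges P).length := by rwa [length_edges]
  have hg := h2 i j hi' hj' hij
  have n1 := h1 _ (List.getElem_mem hi')
  have n2 := h1 _ (List.getElem_mem hj')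
  rw [getElem_edges hi] at hg n1
  rw [getElem_edges hj] at hg n2
  simp only [Good] at hg
  rw [heq] at hg
  rcases hg _ (left_mem_segment ℝ _ _) (left_mem_segment ℝ _ _) with ⟨_, h4⟩ | ⟨_, h4⟩
  · apply n1
    simp only
    rw [h4, heq]
  · exact n2 h4

theorem simple_of {P : Polygon} (h0 : 3 ≤ P.length) (h1 : ∀ e ∈ edges P, e.1 ≠ e.2)
    (h2 : (edges P).Pairwise Good) : IsSimple P := by
  have hn := nodup_of h1 h2
  refine ⟨h0, ?_⟩
  intro i j hij hj z hzi hzj
  have hi : i < P.length := hij.trans hj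
  rw [List.pairwise_iff_getElem] at h2
  have hg := h2 i j (by rwa [length_edges]) (by rwa [length_edges]) hij
  rw [getElem_edges hi, getElem_edges hj] at hg
  unfold side at hzi hzj
  have hi1 : (i + 1) % P.length < P.length := Nat.mod_lt _ (by omega)
  have hj1 : (j + 1) % P.length < P.length := Nat.mod_lt _ (by omega)
  rw [List.getD_eq_getElem _ _ hi, List.getD_eq_getElem _ _ hi1] at hzi
  rw [List.getD_eq_getElem _ _ hj, List.getD_eq_getElem _ _ hj1] at hzj
  rw [List.getD_eq_getElem _ _ hj, List.getD_eq_getElem _ _ (by omega : 0 < P.length)]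
  rcases hg z hzi hzj with ⟨h3, h4⟩ | ⟨h3, h4⟩
  · left
    simp only at h3 h4
    have := (List.Nodup.getElem_inj_iff hn).1 h4
    rw [Nat.mod_eq_of_lt (by omega)] at this
    exact ⟨this.symm, by rw [h3, h4]⟩
  · right
    simp only at h3 h4
    have := (List.Nodup.getElem_inj_iff hn).1 h4
    rcases Nat.lt_or_ge (j + 1) P.length with h5 | h5
    · rw [Nat.mod_eq_of_lt h5] at this
      omega
    · have h6 : j + 1 = P.length := by omega
      rw [h6, Nat.mod_self] at this
      subst this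
      exact ⟨rfl, h6, h3⟩

/-! ### Crossings -/

theorem crosses_symm (z p q : ℂ) : Crosses z p q ↔ Crosses z q p := by
  have key : ∀ p q : ℂ, Crosses z p q → Crosses z q p := by
    intro p q h
    refine ⟨h.1.symm, ?_⟩
    have hne : p.re ≠ q.re := by
      rcases h.1 with ⟨h1, h2⟩ | ⟨h1, h2⟩
      · intro h3
        linarith
      · intro h3
        linarith
    have h4 : p.re - q.re ≠ 0 := sub_ne_zero.2 hne
    have h5 : q.re - p.re ≠ 0 := sub_ne_zero.2 (Ne.symm hne)
    have : q.im + (z.re - q.re) / (p.re - q.re) * (p.im - q.im) =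
        p.im + (z.re - p.re) / (q.re - p.re) * (q.im - p.im) := by
      have h6 : p.re - q.re = -(q.re - p.re) := by ring
      rw [h6]
      field_simp
      ring
    rw [this]
    exact h.2
  exact ⟨key p q, key q p⟩

open Classical in
/-- the number of crossings of a path -/
noncomputable def cnt (z : ℂ) (E : List ((ℚ × ℚ) × (ℚ × ℚ))) : ℕ :=
  E.countP fun e => Crosses z (pt e.1) (pt e.2)

theorem cnt_nil (z : ℂ) : cnt z [] = 0 := rfl

open Classical in
theorem cnt_cons (z : ℂ) (e : (ℚ × ℚ) × (ℚ × ℚ)) (E : List ((ℚ × ℚ) × (ℚ × ℚ))) :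
    cnt z (e :: E) = (if Crosses z (pt e.1) (pt e.2) then 1 else 0) + cnt z E := by
  unfold cnt
  rw [List.countP_cons, add_comm]
  simp

theorem cnt_append (z : ℂ) (E E' : List ((ℚ × ℚ) × (ℚ × ℚ))) :
    cnt z (E ++ E') = cnt z E + cnt z E' := by
  unfold cnt
  rw [List.countP_append]

theorem cnt_path_reverse (z : ℂ) (L : List (ℚ × ℚ)) : cnt z (path L.reverse) = cnt z (path L) := by
  unfold cnt
  rw [path_reverse, List.countP_reverse, List.countP_map]
  apply List.countP_congr
  intro e _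
  simp only [Function.comp_apply, decide_eq_true_eq, Prod.fst_swap, Prod.snd_swap]
  exact crosses_symm _ _ _

theorem mem_region (P : Polygon) (z : ℂ) :
    z ∈ region P ↔ (∃ e ∈ edges P, z ∈ segment ℝ (pt e.1) (pt e.2)) ∨ Odd (cnt z (edges P)) :=
  Iff.rfl

/-! ### Segments -/

theorem mem_seg {p r : ℚ × ℚ} (h : p.1 < r.1) (z : ℂ) :
    z ∈ segment ℝ (pt p) (pt r) ↔ (p.1 : ℝ) ≤ z.re ∧ z.re ≤ r.1 ∧
      z.im = p.2 + (z.re - p.1) / (r.1 - p.1) * (r.2 - p.2) := by
  have h' : (p.1 : ℝ) < r.1 := by exact_mod_cast h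
  have h0 : (0 : ℝ) < r.1 - p.1 := sub_pos.2 h'
  constructor
  · rintro ⟨s, t, hs, ht, hst, rfl⟩
    have hs' : s = 1 - t := by linarith
    subst hs'
    have e1 : ((1 - t) • pt p + t • pt r).re = p.1 + t * (r.1 - p.1) := by
      simp [pt]
      ring
    have e2 : ((1 - t) • pt p + t • pt r).im = p.2 + t * (r.2 - p.2) := by
      simp [pt]
      ring
    rw [e1, e2]
    refine ⟨?_, ?_, ?_⟩
    · nlinarith
    · nlinarith
    · rw [add_sub_cancel_left, mul_div_cancel_right₀ _ h0.ne']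
  · rintro ⟨h1, h2, h3⟩
    obtain ⟨t, ht⟩ : ∃ t : ℝ, t = (z.re - p.1) / (r.1 - p.1) := ⟨_, rfl⟩
    rw [← ht] at h3
    have ht2 : t * (r.1 - p.1) = z.re - p.1 := by
      rw [ht, div_mul_cancel₀ _ h0.ne']
    refine ⟨1 - t, t, ?_, ?_, by ring, ?_⟩
    · rw [sub_nonneg, ht, div_le_one h0]
      linarith
    · rw [ht]
      exact div_nonneg (by linarith) h0.le
    · apply Complex.ext
      · simp [pt]
        linarith
      · simp [pt]
        linarith

/-- a vertical segment -/
theorem mem_vert {p r : ℚ × ℚ} (h : p.1 = r.1) (h2 : p.2 ≤ r.2) (z : ℂ) :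
    z ∈ segment ℝ (pt p) (pt r) ↔ z.re = p.1 ∧ (p.2 : ℝ) ≤ z.im ∧ z.im ≤ r.2 := by
  have h2' : (p.2 : ℝ) ≤ r.2 := by exact_mod_cast h2
  constructor
  · rintro ⟨s, t, hs, ht, hst, rfl⟩
    have hs' : s = 1 - t := by linarith
    subst hs'
    have e1 : ((1 - t) • pt p + t • pt r).re = p.1 := by
      simp [pt, ← h]
      ring
    have e2 : ((1 - t) • pt p + t • pt r).im = p.2 + t * (r.2 - p.2) := by
      simp [pt]
      ring
    rw [e1, e2]
    refine ⟨rfl, ?_, ?_⟩
    · nlinarith
    · nlinarith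
  · rintro ⟨h3, h4, h5⟩
    have : z ∈ segment ℝ (⟨p.1, p.2⟩ : ℂ) ⟨p.1, r.2⟩ := by
      rcases eq_or_lt_of_le h2' with h6 | h6
      · have : z = ⟨p.1, p.2⟩ := Complex.ext h3 (le_antisymm (by linarith) h4)
        rw [this]
        exact left_mem_segment _ _ _
      · have h0 : (0 : ℝ) < r.2 - p.2 := sub_pos.2 h6
        obtain ⟨t, ht⟩ : ∃ t : ℝ, t = (z.im - p.2) / (r.2 - p.2) := ⟨_, rfl⟩
        have ht2 : t * (r.2 - p.2) = z.im - p.2 := by
          rw [ht, div_mul_cancel₀ _ h0.ne']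
        refine ⟨1 - t, t, ?_, ?_, by ring, ?_⟩
        · rw [sub_nonneg, ht, div_le_one h0]
          linarith
        · rw [ht]
          exact div_nonneg (by linarith) h0.le
        · apply Complex.ext
          · simp
            rw [h3]
            ring
          · simp
            linarith
    have e : pt r = (⟨p.1, r.2⟩ : ℂ) := by
      unfold pt
      rw [h]
    rw [e]
    exact this

/-- a horizontal segment -/
theorem mem_horiz {p r : ℚ × ℚ} (h : p.2 = r.2) (h2 : p.1 < r.1) (z : ℂ) :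
    z ∈ segment ℝ (pt p) (pt r) ↔ z.im = p.2 ∧ (p.1 : ℝ) ≤ z.re ∧ z.re ≤ r.1 := by
  rw [mem_seg h2, h, sub_self, mul_zero, add_zero]
  tauto

/-! ### Chains -/

theorem strictX_cons {p : ℚ × ℚ} {L : List (ℚ × ℚ)} (h : StrictX (p :: L)) : StrictX L :=
  (List.pairwise_cons.1 h).2

theorem strictX_lt {p r : ℚ × ℚ} {L : List (ℚ × ℚ)} (h : StrictX (p :: r :: L)) : p.1 < r.1 :=
  (List.pairwise_cons.1 h).1 r List.mem_cons_self

theorem chainVal_head {p : ℚ × ℚ} {L : List (ℚ × ℚ)} (h : StrictX (p :: L)) :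
    chainVal (p :: L) p.1 = p.2 := by
  cases L with
  | nil => rfl
  | cons r L =>
    have := strictX_lt h
    have h1 : (p.1 : ℝ) ≤ r.1 := by exact_mod_cast this.le
    simp [chainVal, h1]

theorem chainVal_le {p r : ℚ × ℚ} {L : List (ℚ × ℚ)} {x : ℝ} (hx : x ≤ r.1) :
    chainVal (p :: r :: L) x = p.2 + (x - p.1) / (r.1 - p.1) * (r.2 - p.2) := by
  simp [chainVal, hx]

theorem chainVal_ge {p r : ℚ × ℚ} {L : List (ℚ × ℚ)} (h : StrictX (p :: r :: L)) {x : ℝ}
    (hx : (r.1 : ℝ) ≤ x) : chainVal (p :: r :: L) x = chainVal (r :: L) x := by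
  rcases eq_or_lt_of_le hx with h1 | h1
  · rw [← h1, chainVal_head (strictX_cons h), chainVal_le le_rfl]
    have := strictX_lt h
    have h2 : (0 : ℝ) < r.1 - p.1 := by
      rw [sub_pos]
      exact_mod_cast this
    rw [div_self h2.ne']
    ring
  · simp [chainVal, not_le.2 h1]

theorem le_last {p : ℚ × ℚ} {L : List (ℚ × ℚ)} (h : StrictX (p :: L)) :
    p.1 ≤ ((p :: L).getLast (List.cons_ne_nil _ _)).1 := by
  rcases List.mem_cons.1 (List.getLast_mem (l := p :: L) (List.cons_ne_nil _ _)) with h1 | h1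
  · rw [h1]
  · exact ((List.pairwise_cons.1 h).1 _ h1).le

theorem chainVal_last {p : ℚ × ℚ} {L : List (ℚ × ℚ)} (h : StrictX (p :: L)) :
    chainVal (p :: L) ((p :: L).getLast (List.cons_ne_nil _ _)).1 = ((p :: L).getLast (List.cons_ne_nil _ _)).2 := by
  induction L generalizing p with
  | nil => rfl
  | cons r L ih =>
    have h1 := ih (strictX_cons h)
    rw [List.getLast_cons (List.cons_ne_nil _ _ : r :: L ≠ [])]
    rw [chainVal_ge h, h1]
    have := le_last (strictX_cons h)
    exact_mod_cast this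

/-- the points on the edges of a chain -/
theorem mem_chain {p r : ℚ × ℚ} {L : List (ℚ × ℚ)} (h : StrictX (p :: r :: L)) (z : ℂ) :
    (∃ e ∈ path (p :: r :: L), z ∈ segment ℝ (pt e.1) (pt e.2)) ↔
      (p.1 : ℝ) ≤ z.re ∧ z.re ≤ ((p :: r :: L).getLast (List.cons_ne_nil _ _)).1 ∧
        z.im = chainVal (p :: r :: L) z.re := by
  have hm : ∀ (p r : ℚ × ℚ) (L : List (ℚ × ℚ)),
      (∃ e ∈ path (p :: r :: L), z ∈ segment ℝ (pt e.1) (pt e.2)) ↔
      z ∈ segment ℝ (pt p) (pt r) ∨ ∃ e ∈ path (r :: L), z ∈ segment ℝ (pt e.1) (pt e.2) := by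
    intro p r L
    rw [path]
    constructor
    · rintro ⟨e, he, hz⟩
      rcases List.mem_cons.1 he with rfl | he
      · exact Or.inl hz
      · exact Or.inr ⟨e, he, hz⟩
    · rintro (hz | ⟨e, he, hz⟩)
      · exact ⟨_, List.mem_cons_self, hz⟩
      · exact ⟨e, List.mem_cons_of_mem _ he, hz⟩
  induction L generalizing p r with
  | nil =>
    rw [hm, mem_seg (strictX_lt h)]
    have e0 : ¬ ∃ e ∈ path [r], z ∈ segment ℝ (pt e.1) (pt e.2) := by
      rintro ⟨e, he, _⟩
      simp [path] at he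
    constructor
    · rintro (⟨h1, h2, h3⟩ | h1)
      · exact ⟨h1, h2, by rw [h3, chainVal_le h2]⟩
      · exact absurd h1 e0
    · rintro ⟨h1, h2, h3⟩
      simp only [List.getLast_cons_cons, List.getLast_singleton] at h2
      exact Or.inl ⟨h1, h2, by rw [h3, chainVal_le h2]⟩
  | cons r' L ih =>
    have h' := strictX_cons h
    have ih' := ih h'
    have h1 : (p.1 : ℝ) < r.1 := by exact_mod_cast strictX_lt h
    have h2 : (r.1 : ℝ) ≤ ((r :: r' :: L).getLast (List.cons_ne_nil _ _)).1 := by exact_mod_cast le_last h'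
    refine (hm p r (r' :: L)).trans ((or_congr (mem_seg (strictX_lt h) z) ih').trans ?_)
    rw [List.getLast_cons (List.cons_ne_nil _ _ : r :: r' :: L ≠ [])]
    constructor
    · rintro (⟨h3, h4, h5⟩ | ⟨h3, h4, h5⟩)
      · exact ⟨h3, h4.trans h2, by rw [chainVal_le h4, h5]⟩
      · exact ⟨h1.le.trans h3, h4, by rw [chainVal_ge h h3, h5]⟩
    · rintro ⟨h3, h4, h5⟩
      rcases le_total z.re r.1 with h6 | h6
      · left
        exact ⟨h3, h6, by rw [h5, chainVal_le h6]⟩
      · right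
        exact ⟨h6, h4, by rw [h5, chainVal_ge h h6]⟩

open Classical in
/-- the crossings of a chain -/
theorem cnt_chain {p : ℚ × ℚ} {L : List (ℚ × ℚ)} (h : StrictX (p :: L)) (z : ℂ) :
    cnt z (path (p :: L)) = if (p.1 : ℝ) ≤ z.re ∧ z.re < ((p :: L).getLast (List.cons_ne_nil _ _)).1 ∧
      z.im < chainVal (p :: L) z.re then 1 else 0 := by
  induction L generalizing p with
  | nil =>
    rw [if_neg]
    · rfl
    · rintro ⟨h1, h2, _⟩
      simp only [List.getLast_singleton] at h2
      linarith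
  | cons r L ih =>
    have h' := strictX_cons h
    have h1 : (p.1 : ℝ) < r.1 := by exact_mod_cast strictX_lt h
    have h2 : (r.1 : ℝ) ≤ ((r :: L).getLast (List.cons_ne_nil _ _)).1 := by exact_mod_cast le_last h'
    rw [path, cnt_cons, ih h', List.getLast_cons (List.cons_ne_nil _ _ : r :: L ≠ [])]
    have e1 : Crosses z (pt p) (pt r) ↔ ((p.1 : ℝ) ≤ z.re ∧ z.re < r.1) ∧
        z.im < p.2 + (z.re - p.1) / (r.1 - p.1) * (r.2 - p.2) := by
      unfold Crosses
      simp only [pt]
      constructor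
      · rintro ⟨h3 | h3, h4⟩
        · exact ⟨h3, h4⟩
        · linarith [h3.1, h3.2]
      · rintro ⟨h3, h4⟩
        exact ⟨Or.inl h3, h4⟩
    rcases lt_or_ge z.re r.1 with h6 | h6
    · have c2 : ¬ ((r.1 : ℝ) ≤ z.re ∧ z.re < ((r :: L).getLast (List.cons_ne_nil _ _)).1 ∧
          z.im < chainVal (r :: L) z.re) := by
        rintro ⟨h7, _⟩
        linarith
      rw [if_neg c2, add_zero]
      apply if_congr _ rfl rfl
      rw [e1, chainVal_le h6.le]
      constructor
      · rintro ⟨⟨h7, _⟩, h8⟩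
        exact ⟨h7, lt_of_lt_of_le h6 h2, h8⟩
      · rintro ⟨h7, _, h8⟩
        exact ⟨⟨h7, h6⟩, h8⟩
    · have c1 : ¬ Crosses z (pt p) (pt r) := by
        rw [e1]
        rintro ⟨⟨_, h7⟩, _⟩
        linarith
      rw [if_neg c1, zero_add]
      apply if_congr _ rfl rfl
      rw [chainVal_ge h h6]
      constructor
      · rintro ⟨h7, h8⟩
        exact ⟨by linarith, h8⟩
      · rintro ⟨_, h8⟩
        exact ⟨h6, h8⟩

/-- every edge of a strict chain goes to the right, and starts to the right of the first corner -/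
theorem mem_path_strict {p : ℚ × ℚ} {L : List (ℚ × ℚ)} (h : StrictX (p :: L))
    {e : (ℚ × ℚ) × (ℚ × ℚ)} (he : e ∈ path (p :: L)) :
    e.1.1 < e.2.1 ∧ (e.1 = p ∨ p.1 < e.1.1) ∧
      (e.2 = (p :: L).getLast (List.cons_ne_nil _ _) ∨ e.2.1 < ((p :: L).getLast (List.cons_ne_nil _ _)).1) := by
  induction L generalizing p with
  | nil => simp [path] at he
  | cons r L ih =>
    have h' := strictX_cons h
    have h1 := strictX_lt h
    rw [path, List.mem_cons] at he
    rw [List.getLast_cons (List.cons_ne_nil _ _ : r :: L ≠ [])]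
    rcases he with rfl | he
    · refine ⟨h1, Or.inl rfl, ?_⟩
      simp only
      rcases List.mem_cons.1 (List.getLast_mem (l := r :: L) (List.cons_ne_nil _ _)) with h2 | h2
      · exact Or.inl h2.symm
      · exact Or.inr ((List.pairwise_cons.1 h').1 _ h2)
    · obtain ⟨h2, h3, h4⟩ := ih h' he
      refine ⟨h2, Or.inr ?_, h4⟩
      rcases h3 with h3 | h3
      · rw [h3]
        exact h1
      · exact h1.trans h3

theorem pairwise_chain {L : List (ℚ × ℚ)} (h : StrictX L) : (path L).Pairwise Good := by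
  induction L with
  | nil => simp [path]
  | cons p L ih =>
    cases L with
    | nil => simp [path]
    | cons r L =>
      have h' := strictX_cons h
      have h1 := strictX_lt h
      rw [path, List.pairwise_cons]
      refine ⟨?_, ih h'⟩
      intro f hf
      obtain ⟨h2, h3, _⟩ := mem_path_strict h' hf
      intro z hz1 hz2
      left
      rw [mem_seg h1] at hz1
      rw [mem_seg h2] at hz2
      have h4 : z.re ≤ r.1 := hz1.2.1
      have h5 : (f.1.1 : ℝ) ≤ z.re := hz2.1
      rcases h3 with h3 | h3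
      · refine ⟨?_, h3.symm⟩
        rw [h3] at h5
        have h6 : z.re = r.1 := le_antisymm h4 h5
        apply Complex.ext
        · exact h6
        · rw [hz1.2.2, h6]
          have h7 : (0 : ℝ) < r.1 - p.1 := by
            rw [sub_pos]
            exact_mod_cast h1
          rw [div_self h7.ne']
          simp [pt]
      · exfalso
        have : (r.1 : ℝ) < f.1.1 := by exact_mod_cast h3
        linarith

/-! ### Chains with given end points -/

theorem eq_cons_of_head {L : List (ℚ × ℚ)} {p : ℚ × ℚ} (h : L.head? = some p) :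
    ∃ L', L = p :: L' := by
  cases L with
  | nil => simp at h
  | cons a L' =>
    simp only [List.head?_cons, Option.some.injEq] at h
    exact ⟨L', by rw [h]⟩

theorem path_glue {X Y : List (ℚ × ℚ)} {p q : ℚ × ℚ} (hp : X.getLast? = some p)
    (hq : Y.head? = some q) : path (X ++ Y) = path X ++ (p, q) :: path Y := by
  obtain ⟨Y', rfl⟩ := eq_cons_of_head hq
  induction X with
  | nil => simp at hp
  | cons x X ih =>
    cases X with
    | nil =>
      simp only [List.getLast?_singleton, Option.some.injEq] at hp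
      subst hp
      rfl
    | cons x' X =>
      rw [List.getLast?_cons_cons] at hp
      have := ih hp
      simp only [List.cons_append, path] at this ⊢
      rw [this]

theorem edges_glue {P : List (ℚ × ℚ)} {p q : ℚ × ℚ} (hp : P.head? = some p)
    (hq : P.getLast? = some q) : edges P = path P ++ [(q, p)] := by
  obtain ⟨P', rfl⟩ := eq_cons_of_head hp
  rw [edges_eq]
  have := path_glue hq (List.head?_cons (a := p) (l := []))
  rw [List.cons_append] at this
  rw [this]
  rfl

theorem getLast_of {L : List (ℚ × ℚ)} {q : ℚ × ℚ} (h : L.getLast? = some q) (hL : L ≠ []) :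
    L.getLast hL = q := by
  rw [List.getLast?_eq_getLast_of_ne_nil hL] at h
  exact Option.some.inj h

section ends

variable {L : List (ℚ × ℚ)} {p q : ℚ × ℚ} (h : StrictX L) (hp : L.head? = some p)
  (hq : L.getLast? = some q)

include h hp

theorem val_head : chainVal L p.1 = p.2 := by
  obtain ⟨L', rfl⟩ := eq_cons_of_head hp
  exact chainVal_head h

include hq

theorem val_last : chainVal L q.1 = q.2 := by
  obtain ⟨L', rfl⟩ := eq_cons_of_head hp
  have := chainVal_last h
  rwa [getLast_of hq] at this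

theorem mem_ends (hpq : p.1 < q.1) (z : ℂ) :
    (∃ e ∈ path L, z ∈ segment ℝ (pt e.1) (pt e.2)) ↔
      (p.1 : ℝ) ≤ z.re ∧ z.re ≤ q.1 ∧ z.im = chainVal L z.re := by
  obtain ⟨L', rfl⟩ := eq_cons_of_head hp
  cases L' with
  | nil =>
    simp only [List.getLast?_singleton, Option.some.injEq] at hq
    rw [hq] at hpq
    exact absurd hpq (lt_irrefl _)
  | cons r L' =>
    have := mem_chain h z
    rwa [getLast_of hq] at this

open Classical in
theorem cnt_ends (z : ℂ) : cnt z (path L) =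
    if (p.1 : ℝ) ≤ z.re ∧ z.re < q.1 ∧ z.im < chainVal L z.re then 1 else 0 := by
  obtain ⟨L', rfl⟩ := eq_cons_of_head hp
  have := cnt_chain h z
  rwa [getLast_of hq] at this

theorem path_ends {e : (ℚ × ℚ) × (ℚ × ℚ)} (he : e ∈ path L) :
    e.1.1 < e.2.1 ∧ (e.1 = p ∨ p.1 < e.1.1) ∧ (e.2 = q ∨ e.2.1 < q.1) := by
  obtain ⟨L', rfl⟩ := eq_cons_of_head hp
  have := mem_path_strict h he
  rwa [getLast_of hq] at this

/-- a point of an edge of a chain on the vertical line through the right end -/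
theorem path_right {e : (ℚ × ℚ) × (ℚ × ℚ)} (he : e ∈ path L) {z : ℂ}
    (hz : z ∈ segment ℝ (pt e.1) (pt e.2)) (h2 : (q.1 : ℝ) ≤ z.re) : z = pt e.2 ∧ e.2 = q := by
  obtain ⟨h3, _, h4⟩ := path_ends h hp hq he
  rw [mem_seg h3] at hz
  rcases h4 with h4 | h4
  · refine ⟨?_, h4⟩
    have h5 : z.re = e.2.1 := le_antisymm hz.2.1 (by rw [h4]; exact h2)
    apply Complex.ext
    · exact h5
    · rw [hz.2.2, h5]
      have h7 : (0 : ℝ) < e.2.1 - e.1.1 := by
        rw [sub_pos]
        exact_mod_cast h3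
      rw [div_self h7.ne']
      simp [pt]
  · exfalso
    have : (e.2.1 : ℝ) < q.1 := by exact_mod_cast h4
    linarith [hz.2.1]

/-- a point of an edge of a chain on the vertical line through the left end -/
theorem path_left {e : (ℚ × ℚ) × (ℚ × ℚ)} (he : e ∈ path L) {z : ℂ}
    (hz : z ∈ segment ℝ (pt e.1) (pt e.2)) (h2 : z.re ≤ p.1) : z = pt e.1 ∧ e.1 = p := by
  obtain ⟨h3, h4, _⟩ := path_ends h hp hq he
  rw [mem_seg h3] at hz
  rcases h4 with h4 | h4
  · refine ⟨?_, h4⟩
    have h5 : z.re = e.1.1 := le_antisymm (by rw [h4]; exact h2) hz.1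
    apply Complex.ext
    · exact h5
    · rw [hz.2.2, h5]
      simp [pt]
  · exfalso
    have : (p.1 : ℝ) < e.1.1 := by exact_mod_cast h4
    linarith [hz.1]

end ends

theorem not_crosses_vert {p q : ℚ × ℚ} (h : p.1 = q.1) (z : ℂ) : ¬ Crosses z (pt p) (pt q) := by
  rintro ⟨h1 | h1, _⟩
  · simp only [pt, h] at h1
    linarith [h1.1, h1.2]
  · simp only [pt, h] at h1
    linarith [h1.1, h1.2]

theorem cnt_vert {p q : ℚ × ℚ} (h : p.1 = q.1) (z : ℂ) (E : List ((ℚ × ℚ) × (ℚ × ℚ))) :
    cnt z ((p, q) :: E) = cnt z E := by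
  rw [cnt_cons, if_neg (not_crosses_vert h z), zero_add]

theorem exists_append {E E' : List ((ℚ × ℚ) × (ℚ × ℚ))} {z : ℂ} :
    (∃ e ∈ E ++ E', z ∈ segment ℝ (pt e.1) (pt e.2)) ↔
      (∃ e ∈ E, z ∈ segment ℝ (pt e.1) (pt e.2)) ∨
      ∃ e ∈ E', z ∈ segment ℝ (pt e.1) (pt e.2) := by
  constructor
  · rintro ⟨e, he, hz⟩
    rcases List.mem_append.1 he with h | h
    · exact Or.inl ⟨e, h, hz⟩
    · exact Or.inr ⟨e, h, hz⟩
  · rintro (⟨e, he, hz⟩ | ⟨e, he, hz⟩)
    · exact ⟨e, List.mem_append_left _ he, hz⟩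
    · exact ⟨e, List.mem_append_right _ he, hz⟩

theorem exists_cons {f : (ℚ × ℚ) × (ℚ × ℚ)} {E : List ((ℚ × ℚ) × (ℚ × ℚ))} {z : ℂ} :
    (∃ e ∈ f :: E, z ∈ segment ℝ (pt e.1) (pt e.2)) ↔
      z ∈ segment ℝ (pt f.1) (pt f.2) ∨ ∃ e ∈ E, z ∈ segment ℝ (pt e.1) (pt e.2) := by
  constructor
  · rintro ⟨e, he, hz⟩
    rcases List.mem_cons.1 he with rfl | h
    · exact Or.inl hz
    · exact Or.inr ⟨e, h, hz⟩
  · rintro (hz | ⟨e, he, hz⟩)
    · exact ⟨_, List.mem_cons_self, hz⟩
    · exact ⟨e, List.mem_cons_of_mem _ he, hz⟩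

theorem exists_reverse {L : List (ℚ × ℚ)} {z : ℂ} :
    (∃ e ∈ path L.reverse, z ∈ segment ℝ (pt e.1) (pt e.2)) ↔
      ∃ e ∈ path L, z ∈ segment ℝ (pt e.1) (pt e.2) := by
  rw [path_reverse]
  constructor
  · rintro ⟨e, he, hz⟩
    rw [List.mem_reverse] at he
    obtain ⟨e', h1, rfl⟩ := List.mem_map.1 he
    refine ⟨e', h1, ?_⟩
    rw [segment_symm]
    exact hz
  · rintro ⟨e, he, hz⟩
    refine ⟨e.swap, ?_, ?_⟩
    · rw [List.mem_reverse]
      exact List.mem_map_of_mem he
    · rw [segment_symm]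
      exact hz

theorem mem_path_reverse {L : List (ℚ × ℚ)} {e : (ℚ × ℚ) × (ℚ × ℚ)} :
    e ∈ path L.reverse ↔ e.swap ∈ path L := by
  rw [path_reverse, List.mem_reverse, List.mem_map]
  constructor
  · rintro ⟨e', h1, rfl⟩
    simpa using h1
  · intro h
    exact ⟨_, h, by simp⟩

end Pool.Agent.Helper15_Pack
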